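import Mathlib

set_option autoImplicit false

open MeasureTheory Set Filter Topology
open scoped ENNReal NNReal Real

namespace Pool.Agent.H532R3.Hall

section defs

variable {V : Type*} [NormedAddCommGroup V] [InnerProductSpace ℝ V]

/-- The largest of the three interior angles of the triangle with vertices `X, Y, Z`. -/
noncomputable def largestAngle (X Y Z : V) : ℝ :=
  max (EuclideanGeometry.angle Y X Z)
    (max (EuclideanGeometry.angle X Y Z) (EuclideanGeometry.angle X Z Y))

/-- The uniform distribution on `S` (Lebesgue measure conditioned on `S`). -/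
noncomputable def uniform [MeasureSpace V] (S : Set V) : Measure V :=
  ProbabilityTheory.cond (volume : Measure V) S

/-- `F S φ` is the probability that the largest angle of the triangle spanned by three independent
uniform points of `S` is at most `φ`. -/
noncomputable def F [MeasureSpace V] (S : Set V) (φ : ℝ) : ℝ :=
  (((uniform S).prod ((uniform S).prod (uniform S)))
    {p : V × V × V | largestAngle p.1 p.2.1 p.2.2 ≤ φ}).toReal

/-- triangles in `S` with largest angle at most `φ`. -/
def T (S : Set V) (φ : ℝ) : Set (V × V × V) :=
  {p | p.1 ∈ S ∧ p.2.1 ∈ S ∧ p.2.2 ∈ S ∧ largestAngle p.1 p.2.1 p.2.2 ≤ φ}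

lemma largestAngle_eq (X Y Z : V) : largestAngle X Y Z =
    max (InnerProductGeometry.angle (Y - X) (Z - X))
      (max (InnerProductGeometry.angle (X - Y) (Z - Y))
        (InnerProductGeometry.angle (X - Z) (Y - Z))) := rfl

lemma largestAngle_swap12 (X Y Z : V) : largestAngle Y X Z = largestAngle X Y Z := by
  simp only [largestAngle_eq]
  rw [InnerProductGeometry.angle_comm (Y - Z) (X - Z)]
  rw [← max_assoc, ← max_assoc, max_comm (InnerProductGeometry.angle (X - Y) (Z - Y))]

lemma largestAngle_swap13 (X Y Z : V) : largestAngle Z Y X = largestAngle X Y Z := by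
  simp only [largestAngle_eq]
  rw [InnerProductGeometry.angle_comm (Z - X) (Y - X),
    InnerProductGeometry.angle_comm (Z - Y) (X - Y),
    InnerProductGeometry.angle_comm (Y - Z) (X - Z)]
  ac_rfl

end defs

section meas

variable {V : Type*} [NormedAddCommGroup V] [InnerProductSpace ℝ V] [MeasureSpace V]
  [BorelSpace V] [SecondCountableTopology V]

lemma measurable_angle : Measurable fun p : V × V => InnerProductGeometry.angle p.1 p.2 := by
  unfold InnerProductGeometry.angle
  refine Real.measurable_arccos.comp ?_
  refine Measurable.div ?_ ?_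
  · exact (continuous_inner).measurable
  · exact (measurable_fst.norm).mul (measurable_snd.norm)

lemma measurable_largestAngle :
    Measurable fun p : V × V × V => largestAngle p.1 p.2.1 p.2.2 := by
  have h1 : Measurable fun p : V × V × V => (p.2.1 - p.1, p.2.2 - p.1) := by fun_prop
  have h2 : Measurable fun p : V × V × V => (p.1 - p.2.1, p.2.2 - p.2.1) := by fun_prop
  have h3 : Measurable fun p : V × V × V => (p.1 - p.2.2, p.2.1 - p.2.2) := by fun_prop
  have k1 := (measurable_angle (V := V)).comp h1
  have k2 := (measurable_angle (V := V)).comp h2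
  have k3 := (measurable_angle (V := V)).comp h3
  exact k1.max (k2.max k3)

lemma measurableSet_T {S : Set V} (hS : MeasurableSet S) (φ : ℝ) : MeasurableSet (T S φ) := by
  unfold T
  refine (measurable_fst hS).inter ((measurable_snd.fst hS).inter ((measurable_snd.snd hS).inter ?_))
  exact measurableSet_le measurable_largestAngle measurable_const

lemma F_eq [SigmaFinite (volume : Measure V)] (S : Set V) (φ : ℝ) :
    F S φ = ((volume S)⁻¹ * ((volume S)⁻¹ * (volume S)⁻¹) * volume (T S φ)).toReal := by
  unfold F uniform ProbabilityTheory.cond
  congr 1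
  by_cases h0 : volume S = 0
  · have h1 : (volume : Measure V).restrict S = 0 := Measure.restrict_eq_zero.mpr h0
    have h2 : volume (T S φ) = 0 := by
      refine measure_mono_null (t := S ×ˢ (univ : Set (V × V))) ?_ ?_
      · intro p hp
        exact ⟨hp.1, mem_univ _⟩
      · rw [Measure.volume_eq_prod, Measure.prod_prod, h0, zero_mul]
    rw [h1, h2]
    simp
  have hinv : (volume S)⁻¹ ≠ ∞ := ENNReal.inv_ne_top.mpr h0
  rw [Measure.prod_smul_left, Measure.prod_smul_left, Measure.prod_smul_right,
    Measure.prod_smul_right, Measure.prod_smul_right, Measure.prod_restrict,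
    Measure.prod_restrict]
  simp only [Measure.smul_apply, smul_eq_mul]
  rw [Measure.restrict_apply (measurableSet_le measurable_largestAngle measurable_const)]
  rw [← mul_assoc, ← mul_assoc]
  congr 1
  · ring
  · rw [Measure.volume_eq_prod, Measure.volume_eq_prod]
    congr 1
    ext p
    simp only [T, mem_inter_iff, mem_ofPred_eq, mem_prod]
    tauto

end meas

attribute [irreducible] largestAngle

end Pool.Agent.H532R3.Hall
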