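import Pool.Agent.H532R3.Hall.Reduce

set_option autoImplicit false

open MeasureTheory Set Filter Topology
open scoped ENNReal NNReal Real

namespace Pool.Agent.H532R3.Hall

def K (ζ : ℂ) : Set ℂ := {v | ‖1 - v‖ ≤ 1 ∧ ‖1 - v * ζ‖ ≤ 1}

lemma measurableSet_K (ζ : ℂ) : MeasurableSet (K ζ) := by
  have h1 : MeasurableSet {v : ℂ | ‖1 - v‖ ≤ 1} := measurableSet_le (by fun_prop) (by fun_prop)
  have h2 : MeasurableSet {v : ℂ | ‖1 - v * ζ‖ ≤ 1} :=
    measurableSet_le (by fun_prop) (by fun_prop)
  exact h1.inter h2

/-- weighted lens measure -/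
noncomputable def h (ζ : ℂ) : ℝ≥0∞ := ∫⁻ v in K ζ, ENNReal.ofReal (Complex.normSq v)

noncomputable def c4 : ℝ≥0∞ :=
  ∫⁻ X in Metric.ball (0 : ℂ) 1, ENNReal.ofReal (Complex.normSq X) ^ 2

lemma volume_G (φ : ℝ) : volume (G φ) = c4 * ∫⁻ ζ in A φ, h ζ := by
  have hG := measurableSet_G φ
  have hmeas : Measurable ((G φ).indicator (1 : ℂ × ℂ × ℂ → ℝ≥0∞)) := measurable_one.indicator hG
  rw [volume_triple hG, shape (fun p => (G φ).indicator 1 p) hmeas]
  have key : ∀ ζ : ℂ, ∫⁻ X, ∫⁻ u, ENNReal.ofReal (Complex.normSq u) *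
      (G φ).indicator (1 : ℂ × ℂ × ℂ → ℝ≥0∞) (X, X + u, X + u * ζ) =
      (A φ).indicator (fun ζ => c4 * h ζ) ζ := by
    intro ζ
    have h1 : ∀ X : ℂ, X ≠ 0 → ∫⁻ u, ENNReal.ofReal (Complex.normSq u) *
        (G φ).indicator (1 : ℂ × ℂ × ℂ → ℝ≥0∞) (X, X + u, X + u * ζ) =
        ((Metric.ball (0 : ℂ) 1).indicator (fun X => ENNReal.ofReal (Complex.normSq X) ^ 2) X) *
          (A φ).indicator h ζ := by
      intro X hX
      have hX' : -X ≠ 0 := neg_ne_zero.mpr hX
      have hXp : 0 < ‖X‖ := norm_pos_iff.mpr hX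
      rw [lintegral_affine 0 (-X) hX' _ (by fun_prop)]
      have h2 : ∀ᵐ v : ℂ, v ≠ 0 := by simp [ae_iff]
      have h3 : ∫⁻ v, ENNReal.ofReal (Complex.normSq (0 + -X * v)) *
          (G φ).indicator (1 : ℂ × ℂ × ℂ → ℝ≥0∞) (X, X + (0 + -X * v), X + (0 + -X * v) * ζ)
          = ∫⁻ v, ENNReal.ofReal (Complex.normSq X) *
            ((Metric.ball (0 : ℂ) 1).indicator 1 X * (A φ).indicator 1 ζ) *
            (K ζ).indicator (fun v => ENNReal.ofReal (Complex.normSq v)) v := by
        apply lintegral_congr_ae
        filter_upwards [h2] with v hv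
        have e0 : Complex.normSq (0 + -X * v) = Complex.normSq X * Complex.normSq v := by
          rw [zero_add, Complex.normSq_mul, Complex.normSq_neg]
        have e1 : X + (0 + -X * v) = X * (1 - v) := by ring
        have e2 : X + (0 + -X * v) * ζ = X * (1 - v * ζ) := by ring
        have e3 : largestAngle X (X * (1 - v)) (X * (1 - v * ζ)) = largestAngle 0 1 ζ := by
          have : X * (1 - v) = X + (-X * v) := by ring
          rw [this]
          have : X * (1 - v * ζ) = X + (-X * v) * ζ := by ring
          rw [this]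
          exact largestAngle_similar X (-X * v) ζ (mul_ne_zero hX' hv)
        rw [e0, e1, e2, ENNReal.ofReal_mul (Complex.normSq_nonneg _)]
        have hmem : (X, X * (1 - v), X * (1 - v * ζ)) ∈ G φ ↔
            X ∈ Metric.ball (0 : ℂ) 1 ∧ ζ ∈ A φ ∧ v ∈ K ζ := by
          simp only [G, A, K, mem_ofPred_eq, mem_ball_zero_iff, e3, norm_mul]
          constructor
          · rintro ⟨a, b, c, d⟩
            refine ⟨a, d, ?_, ?_⟩
            · by_contra hcon
              push Not at hcon
              nlinarith
            · by_contra hcon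
              push Not at hcon
              nlinarith
          · rintro ⟨a, d, b, c⟩
            refine ⟨a, ?_, ?_, d⟩
            · nlinarith
            · nlinarith
        by_cases a1 : X ∈ Metric.ball (0 : ℂ) 1
        · by_cases a2 : ζ ∈ A φ
          · by_cases a3 : v ∈ K ζ
            · rw [indicator_of_mem (hmem.mpr ⟨a1, a2, a3⟩), indicator_of_mem a1,
                indicator_of_mem a2, indicator_of_mem a3]
              simp
            · rw [indicator_of_notMem (fun hh => a3 (hmem.mp hh).2.2), indicator_of_notMem a3]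
              simp
          · rw [indicator_of_notMem (fun hh => a2 (hmem.mp hh).2.1), indicator_of_notMem a2]
            simp
        · rw [indicator_of_notMem (fun hh => a1 (hmem.mp hh).1), indicator_of_notMem a1]
          simp
      rw [h3, lintegral_const_mul _
        ((by fun_prop : Measurable fun v : ℂ => ENNReal.ofReal (Complex.normSq v)).indicator
          (measurableSet_K ζ)), lintegral_indicator (measurableSet_K ζ)]
      change _ * (_ * h ζ) = _
      rw [Complex.normSq_neg]
      by_cases a1 : X ∈ Metric.ball (0 : ℂ) 1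
      · by_cases a2 : ζ ∈ A φ
        · rw [indicator_of_mem a1, indicator_of_mem a1, indicator_of_mem a2, indicator_of_mem a2]
          simp only [Pi.one_apply, mul_one]
          ring
        · rw [indicator_of_notMem a2, indicator_of_notMem a2]
          simp
      · rw [indicator_of_notMem a1, indicator_of_notMem a1]
        simp
    have h4 : ∀ᵐ X : ℂ, X ≠ 0 := by simp [ae_iff]
    have h5 : ∫⁻ X, ∫⁻ u, ENNReal.ofReal (Complex.normSq u) *
      (G φ).indicator (1 : ℂ × ℂ × ℂ → ℝ≥0∞) (X, X + u, X + u * ζ) = ∫⁻ X : ℂ,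
        ((Metric.ball (0 : ℂ) 1).indicator (fun X => ENNReal.ofReal (Complex.normSq X) ^ 2) X) *
          (A φ).indicator h ζ := by
      apply lintegral_congr_ae
      filter_upwards [h4] with X hX using h1 X hX
    rw [h5, lintegral_mul_const _
      ((by fun_prop : Measurable fun X : ℂ => ENNReal.ofReal (Complex.normSq X) ^ 2).indicator
        Metric.isOpen_ball.measurableSet), lintegral_indicator Metric.isOpen_ball.measurableSet]
    change c4 * _ = _
    by_cases a2 : ζ ∈ A φ
    · rw [indicator_of_mem a2, indicator_of_mem a2]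
    · rw [indicator_of_notMem a2, indicator_of_notMem a2, mul_zero]
  simp_rw [key]
  rw [lintegral_indicator (measurableSet_A φ)]
  apply lintegral_const_mul'
  unfold c4
  refine ne_of_lt ?_
  calc ∫⁻ X in Metric.ball (0 : ℂ) 1, ENNReal.ofReal (Complex.normSq X) ^ 2
      ≤ ∫⁻ X in Metric.ball (0 : ℂ) 1, 1 := by
        apply setLIntegral_mono' Metric.isOpen_ball.measurableSet
        intro X hX
        rw [mem_ball_zero_iff] at hX
        have : Complex.normSq X ≤ 1 := by
          rw [Complex.normSq_eq_norm_sq]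
          nlinarith [norm_nonneg X]
        calc ENNReal.ofReal (Complex.normSq X) ^ 2 ≤ 1 ^ 2 := by
              gcongr
              exact ENNReal.ofReal_le_one.mpr this
          _ = 1 := one_pow 2
    _ < ∞ := by
        rw [setLIntegral_one]
        exact measure_ball_lt_top

end Pool.Agent.H532R3.Hall
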