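import Pool.Agent.H532R3.Hall.Polar

set_option autoImplicit false

open MeasureTheory Set Filter Topology
open scoped ENNReal NNReal Real

namespace Pool.Agent.H532R3.Hall

/-- apex of the equilateral triangle over `[0,1]` -/
noncomputable def z0 : ℂ := ⟨1 / 2, √3 / 2⟩

lemma normSq_z0 : Complex.normSq z0 = 1 := by
  unfold z0
  rw [Complex.normSq_apply]
  nlinarith [Real.sq_sqrt (show (0 : ℝ) ≤ 3 by norm_num)]

lemma normSq_z0' : Complex.normSq (starRingEnd ℂ z0) = 1 := by
  rw [Complex.normSq_conj, normSq_z0]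

lemma pr_z0 (ψ : ℝ) : pr ψ z0 = Real.cos (ψ + π / 3) := by
  unfold pr z0
  rw [Real.cos_add, Real.cos_pi_div_three, Real.sin_pi_div_three]

lemma R_conj (ζ : ℂ) (ψ : ℝ) : R (starRingEnd ℂ ζ) ψ = R ζ (-ψ) := by
  unfold R pr
  rw [Complex.normSq_conj, Complex.conj_re, Complex.conj_im, Real.cos_neg, Real.sin_neg]
  simp

lemma hr_conj (ζ : ℂ) : hr (starRingEnd ℂ ζ) = hr ζ := by
  unfold hr
  simp_rw [R_conj]
  rw [intervalIntegral.integral_comp_neg (fun ψ => R ζ ψ ^ 4 / 4)]
  simp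

lemma R_z0 (ψ : ℝ) : R z0 ψ = max 0 (min (2 * Real.cos ψ) (2 * Real.cos (ψ + π / 3))) := by
  unfold R
  rw [pr_z0, normSq_z0]
  norm_num

lemma cos_shift (ψ : ℝ) : Real.cos (ψ + π / 3) - Real.cos ψ = - Real.sin (ψ + π / 6) := by
  rw [Real.cos_sub_cos]
  have h1 : (ψ + π / 3 + ψ) / 2 = ψ + π / 6 := by ring
  have h2 : (ψ + π / 3 - ψ) / 2 = π / 6 := by ring
  rw [h1, h2, Real.sin_pi_div_six]
  ring

lemma integral_cos4 (a b : ℝ) : ∫ x in a..b, Real.cos x ^ 4 =
    (Real.cos b ^ 3 * Real.sin b - Real.cos a ^ 3 * Real.sin a) / 4 +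
      3 / 4 * ((Real.cos b * Real.sin b - Real.cos a * Real.sin a + b - a) / 2) := by
  have := @integral_cos_pow a b 2
  norm_num at this
  rw [this]

lemma hr_z0 : hr z0 = π - 9 * √3 / 8 := by
  have hcont : Continuous fun ψ => R z0 ψ ^ 4 / 4 := by
    have := continuous_R.comp (by fun_prop : Continuous fun ψ : ℝ => (z0, ψ))
    exact (this.pow 4).div_const 4
  have hpi := Real.pi_pos
  have hi : ∀ a b : ℝ, IntervalIntegrable (fun ψ => R z0 ψ ^ 4 / 4) volume a b :=
    fun a b => hcont.intervalIntegrable a b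
  unfold hr
  rw [← intervalIntegral.integral_add_adjacent_intervals (hi (-π) (-(π / 2))) (hi (-(π / 2)) π),
    ← intervalIntegral.integral_add_adjacent_intervals (hi (-(π / 2)) (-(π / 6)))
      (hi (-(π / 6)) π),
    ← intervalIntegral.integral_add_adjacent_intervals (hi (-(π / 6)) (π / 6)) (hi (π / 6) π)]
  have i1 : ∫ ψ in (-π)..(-(π / 2)), R z0 ψ ^ 4 / 4 = 0 := by
    rw [intervalIntegral.integral_congr (g := fun _ => (0 : ℝ))]
    · simp
    · intro ψ hψ
      rw [uIcc_of_le (by linarith)] at hψ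
      have h1 : Real.cos ψ ≤ 0 := by
        rw [← Real.cos_neg]
        exact Real.cos_nonpos_of_pi_div_two_le_of_le (by linarith [hψ.2]) (by linarith [hψ.1])
      have : R z0 ψ = 0 := by
        rw [R_z0]
        apply max_eq_left
        exact (min_le_left _ _).trans (by linarith)
      simp [this]
  have i4 : ∫ ψ in (π / 6)..π, R z0 ψ ^ 4 / 4 = 0 := by
    rw [intervalIntegral.integral_congr (g := fun _ => (0 : ℝ))]
    · simp
    · intro ψ hψ
      rw [uIcc_of_le (by linarith)] at hψ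
      have h1 : Real.cos (ψ + π / 3) ≤ 0 :=
        Real.cos_nonpos_of_pi_div_two_le_of_le (by linarith [hψ.1]) (by linarith [hψ.2])
      have : R z0 ψ = 0 := by
        rw [R_z0]
        apply max_eq_left
        exact (min_le_right _ _).trans (by linarith)
      simp [this]
  have i2 : ∫ ψ in (-(π / 2))..(-(π / 6)), R z0 ψ ^ 4 / 4 =
      ∫ ψ in (-(π / 2))..(-(π / 6)), 4 * Real.cos ψ ^ 4 := by
    apply intervalIntegral.integral_congr
    intro ψ hψ
    rw [uIcc_of_le (by linarith)] at hψ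
    have h1 : 0 ≤ Real.cos ψ :=
      Real.cos_nonneg_of_mem_Icc ⟨by linarith [hψ.1], by linarith [hψ.2]⟩
    have h2 : Real.sin (ψ + π / 6) ≤ 0 :=
      Real.sin_nonpos_of_nonpos_of_neg_pi_le (by linarith [hψ.2]) (by linarith [hψ.1])
    have h3 := cos_shift ψ
    have : R z0 ψ = 2 * Real.cos ψ := by
      rw [R_z0, min_eq_left (by linarith), max_eq_right (by linarith)]
    simp only [this]
    ring
  have i3 : ∫ ψ in (-(π / 6))..(π / 6), R z0 ψ ^ 4 / 4 =
      ∫ ψ in (-(π / 6))..(π / 6), 4 * Real.cos (ψ + π / 3) ^ 4 := by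
    apply intervalIntegral.integral_congr
    intro ψ hψ
    rw [uIcc_of_le (by linarith)] at hψ
    have h1 : 0 ≤ Real.cos (ψ + π / 3) :=
      Real.cos_nonneg_of_mem_Icc ⟨by linarith [hψ.1], by linarith [hψ.2]⟩
    have h2 : 0 ≤ Real.sin (ψ + π / 6) :=
      Real.sin_nonneg_of_nonneg_of_le_pi (by linarith [hψ.1]) (by linarith [hψ.2])
    have h3 := cos_shift ψ
    have : R z0 ψ = 2 * Real.cos (ψ + π / 3) := by
      rw [R_z0, min_eq_right (by linarith), max_eq_right (by linarith)]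
    simp only [this]
    ring
  rw [i1, i2, i3, i4]
  rw [intervalIntegral.integral_comp_add_right (fun x => 4 * Real.cos x ^ 4) (π / 3)]
  rw [intervalIntegral.integral_const_mul, intervalIntegral.integral_const_mul,
    integral_cos4, integral_cos4]
  have e1 : -(π / 6) + π / 3 = π / 6 := by ring
  have e2 : π / 6 + π / 3 = π / 2 := by ring
  rw [e1, e2]
  simp only [Real.cos_neg, Real.sin_neg, Real.cos_pi_div_two, Real.sin_pi_div_two,
    Real.cos_pi_div_six, Real.sin_pi_div_six]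
  have h3 : √3 ^ 3 = 3 * √3 := by
    rw [pow_succ, Real.sq_sqrt (by norm_num)]
  ring_nf
  rw [h3]
  ring

end Pool.Agent.H532R3.Hall
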