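import Pool.Agent.H532R3.Hall.EvalD

set_option autoImplicit false

open MeasureTheory Set Filter Topology
open scoped ENNReal NNReal Real

namespace Pool.Agent.H532R3.Hall

/-- length of the smallest interval containing `0, a, b` -/
noncomputable def rg (a b : ℝ) : ℝ := max 0 (max a b) - min 0 (min a b)

lemma rg_nonneg (a b : ℝ) : 0 ≤ rg a b := by
  unfold rg
  have h1 : 0 ≤ max 0 (max a b) := le_max_left _ _
  have h2 : min 0 (min a b) ≤ 0 := min_le_left _ _
  linarith

lemma rg_comm (a b : ℝ) : rg a b = rg b a := by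
  unfold rg
  rw [max_comm a b, min_comm a b]

lemma rg_neg (a b : ℝ) : rg (-a) (-b) = rg a b := by
  unfold rg
  rcases le_total a b with h | h <;> rcases le_total 0 a with h1 | h1 <;>
    rcases le_total 0 b with h2 | h2 <;>
    simp [max_def, min_def] <;> split_ifs <;> linarith

lemma rg_shift (x y : ℝ) : rg y (y - x) = rg x y := by
  unfold rg
  simp only [max_def, min_def]
  split_ifs <;> linarith

lemma rg_shift' (x y : ℝ) : rg x (x - y) = rg x y := by
  rw [rg_shift, rg_comm]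

lemma rg_smul {r : ℝ} (hr : 0 ≤ r) (a b : ℝ) : rg (r * a) (r * b) = r * rg a b := by
  unfold rg
  rw [mul_sub, mul_max_of_nonneg _ _ hr, mul_max_of_nonneg _ _ hr, mul_min_of_nonneg _ _ hr,
    mul_min_of_nonneg _ _ hr, mul_zero]

noncomputable def J (a b : ℝ) : ℝ := ∫ r in (0 : ℝ)..2, r ^ 3 * max 0 (1 - r * a) * max 0 (1 - r * b)

lemma J_comm (a b : ℝ) : J a b = J b a := by
  unfold J
  congr 1
  ext r
  ring

lemma J_eq {a b : ℝ} (hab : b ≤ a) (ha : 1 / 2 ≤ a) :
    J a b = 1 / (20 * a ^ 4) - b / (30 * a ^ 5) := by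
  have ha0 : 0 < a := by linarith
  have hcont : Continuous fun r : ℝ => r ^ 3 * max 0 (1 - r * a) * max 0 (1 - r * b) := by
    fun_prop
  have h2 : 1 / a ≤ 2 := by
    rw [div_le_iff₀ ha0]; linarith
  have h0 : 0 ≤ 1 / a := by positivity
  unfold J
  rw [← intervalIntegral.integral_add_adjacent_intervals (hcont.intervalIntegrable 0 (1 / a))
    (hcont.intervalIntegrable (1 / a) 2)]
  have i2 : ∫ r in (1 / a)..2, r ^ 3 * max 0 (1 - r * a) * max 0 (1 - r * b) = 0 := by
    rw [intervalIntegral.integral_congr (g := fun _ => (0 : ℝ))]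
    · simp
    · intro r hr
      rw [uIcc_of_le h2] at hr
      have : 1 ≤ r * a := by
        have := hr.1
        rw [div_le_iff₀ ha0] at this
        exact this
      simp only
      rw [max_eq_left (show 1 - r * a ≤ 0 by linarith)]
      ring
  have i1 : ∫ r in (0 : ℝ)..(1 / a), r ^ 3 * max 0 (1 - r * a) * max 0 (1 - r * b) =
      ∫ r in (0 : ℝ)..(1 / a), (r ^ 3 - (a + b) * r ^ 4 + a * b * r ^ 5) := by
    apply intervalIntegral.integral_congr
    intro r hr
    rw [uIcc_of_le h0] at hr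
    have h1 : r * a ≤ 1 := by
      have := hr.2
      rw [le_div_iff₀ ha0] at this
      exact this
    have h3 : r * b ≤ 1 := (mul_le_mul_of_nonneg_left hab hr.1).trans h1
    simp only
    rw [max_eq_right (show 0 ≤ 1 - r * a by linarith), max_eq_right (show 0 ≤ 1 - r * b by linarith)]
    ring
  have i3 : ∫ r in (0 : ℝ)..(1 / a), (r ^ 3 - (a + b) * r ^ 4 + a * b * r ^ 5) =
      (fun r : ℝ => r ^ 4 / 4 - (a + b) * r ^ 5 / 5 + a * b * r ^ 6 / 6) (1 / a) -
      (fun r : ℝ => r ^ 4 / 4 - (a + b) * r ^ 5 / 5 + a * b * r ^ 6 / 6) 0 := by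
    refine intervalIntegral.integral_eq_sub_of_hasDerivAt
      (f := fun r : ℝ => r ^ 4 / 4 - (a + b) * r ^ 5 / 5 + a * b * r ^ 6 / 6)
      (f' := fun r : ℝ => r ^ 3 - (a + b) * r ^ 4 + a * b * r ^ 5) ?_ ?_
    · intro r _
      have d4 : HasDerivAt (fun r : ℝ => r ^ 4) (4 * r ^ 3) r := by
        simpa using hasDerivAt_pow 4 r
      have d5 : HasDerivAt (fun r : ℝ => r ^ 5) (5 * r ^ 4) r := by
        simpa using hasDerivAt_pow 5 r
      have d6 : HasDerivAt (fun r : ℝ => r ^ 6) (6 * r ^ 5) r := by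
        simpa using hasDerivAt_pow 6 r
      have := ((d4.div_const 4).sub ((d5.const_mul (a + b)).div_const 5)).add
        ((d6.const_mul (a * b)).div_const 6)
      exact this.congr_deriv (by ring)
    · exact (by fun_prop : Continuous fun r : ℝ => r ^ 3 - (a + b) * r ^ 4 + a * b * r ^ 5
        ).intervalIntegrable _ _
  rw [i1, i2, i3]
  field_simp
  ring

noncomputable def ax (ψ : ℝ) : ℝ := rg (Real.cos ψ) (Real.cos (ψ + π / 3))
noncomputable def ay (ψ : ℝ) : ℝ := rg (Real.sin ψ) (Real.sin (ψ + π / 3))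
noncomputable def P (ψ : ℝ) : ℝ := J (ax ψ) (ay ψ)

lemma cos_add_third (ψ : ℝ) :
    Real.cos (ψ + π / 3) = 1 / 2 * Real.cos ψ - √3 / 2 * Real.sin ψ := by
  rw [Real.cos_add, Real.cos_pi_div_three, Real.sin_pi_div_three]; ring

lemma sin_add_third (ψ : ℝ) :
    Real.sin (ψ + π / 3) = 1 / 2 * Real.sin ψ + √3 / 2 * Real.cos ψ := by
  rw [Real.sin_add, Real.cos_pi_div_three, Real.sin_pi_div_three]; ring

lemma s3 : √3 * √3 = 3 := Real.mul_self_sqrt (by norm_num)

lemma ax_add (ψ : ℝ) : ax (ψ + π / 3) = ax ψ := by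
  unfold ax
  have : Real.cos (ψ + π / 3 + π / 3) = Real.cos (ψ + π / 3) - Real.cos ψ := by
    rw [cos_add_third (ψ + π / 3), cos_add_third, sin_add_third]
    linear_combination (-(Real.cos ψ) / 4) * s3
  rw [this, rg_shift]

lemma ay_add (ψ : ℝ) : ay (ψ + π / 3) = ay ψ := by
  unfold ay
  have : Real.sin (ψ + π / 3 + π / 3) = Real.sin (ψ + π / 3) - Real.sin ψ := by
    rw [sin_add_third (ψ + π / 3), cos_add_third, sin_add_third]
    linear_combination (-(Real.sin ψ) / 4) * s3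
  rw [this, rg_shift]

lemma ax_neg (ψ : ℝ) : ax (-ψ) = ax ψ := by
  unfold ax
  have : Real.cos (-ψ + π / 3) = Real.cos ψ - Real.cos (ψ + π / 3) := by
    rw [cos_add_third, cos_add_third, Real.cos_neg, Real.sin_neg]; ring
  rw [this, Real.cos_neg, rg_shift']

lemma ay_neg (ψ : ℝ) : ay (-ψ) = ay ψ := by
  unfold ay
  have : Real.sin (-ψ + π / 3) = -(Real.sin ψ - Real.sin (ψ + π / 3)) := by
    rw [sin_add_third, sin_add_third, Real.cos_neg, Real.sin_neg]; ring
  rw [this, Real.sin_neg, rg_neg, rg_shift']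

lemma ax_swap (ψ : ℝ) : ax (π / 6 - ψ) = ay ψ := by
  unfold ax ay
  have h1 : Real.cos (π / 6 - ψ + π / 3) = Real.sin ψ := by
    rw [← Real.cos_pi_div_two_sub]
    congr 1
    ring
  have h2 : Real.sin (ψ + π / 3) = Real.cos (π / 6 - ψ) := by
    rw [← Real.cos_pi_div_two_sub]
    congr 1
    ring
  rw [h1, h2, rg_comm]

lemma ay_swap (ψ : ℝ) : ay (π / 6 - ψ) = ax ψ := by
  rw [← ax_swap]
  congr 1
  ring

lemma P_periodic : Function.Periodic P (π / 3) := by
  intro ψ
  unfold P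
  rw [ax_add, ay_add]

lemma P_neg (ψ : ℝ) : P (-ψ) = P ψ := by
  unfold P
  rw [ax_neg, ay_neg]

lemma P_swap (ψ : ℝ) : P (π / 6 - ψ) = P ψ := by
  unfold P
  rw [ax_swap, ay_swap, J_comm]

lemma continuous_rg : Continuous fun p : ℝ × ℝ => rg p.1 p.2 := by
  unfold rg
  fun_prop

lemma continuous_J : Continuous fun p : ℝ × ℝ => J p.1 p.2 := by
  unfold J
  apply intervalIntegral.continuous_parametric_intervalIntegral_of_continuous'
  fun_prop

lemma continuous_P : Continuous P := by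
  unfold P ax ay
  have h1 : Continuous fun ψ : ℝ => rg (Real.cos ψ) (Real.cos (ψ + π / 3)) :=
    continuous_rg.comp (by fun_prop : Continuous fun ψ : ℝ => (Real.cos ψ, Real.cos (ψ + π / 3)))
  have h2 : Continuous fun ψ : ℝ => rg (Real.sin ψ) (Real.sin (ψ + π / 3)) :=
    continuous_rg.comp (by fun_prop : Continuous fun ψ : ℝ => (Real.sin ψ, Real.sin (ψ + π / 3)))
  exact continuous_J.comp (h1.prodMk h2)

lemma tan_pi_div_twelve : Real.tan (π / 12) = 2 - √3 := by
  have hc : 0 < Real.cos (π / 12) :=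
    Real.cos_pos_of_mem_Ioo ⟨by linarith [Real.pi_pos], by linarith [Real.pi_pos]⟩
  have h1 : Real.sin (π / 6) = 2 * Real.sin (π / 12) * Real.cos (π / 12) := by
    rw [← Real.sin_two_mul]; congr 1; ring
  have h2 : Real.cos (π / 6) = 2 * Real.cos (π / 12) ^ 2 - 1 := by
    rw [← Real.cos_two_mul]; congr 1; ring
  rw [Real.sin_pi_div_six] at h1
  rw [Real.cos_pi_div_six] at h2
  rw [Real.tan_eq_sin_div_cos, div_eq_iff hc.ne']
  have h3 : Real.cos (π / 12) ^ 2 = (2 + √3) / 4 := by linarith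
  have h4 : Real.sin (π / 12) * Real.cos (π / 12) = (2 - √3) * Real.cos (π / 12) * Real.cos (π / 12) := by
    have : (2 - √3) * Real.cos (π / 12) * Real.cos (π / 12) = (2 - √3) * Real.cos (π / 12) ^ 2 := by
      ring
    rw [this, h3]
    nlinarith [s3]
  exact mul_right_cancel₀ hc.ne' h4

lemma P_eq {ψ : ℝ} (h0 : 0 ≤ ψ) (h1 : ψ ≤ π / 12) :
    P ψ = (3 - √3) / 60 * (1 / Real.cos ψ ^ 4) - 1 / 60 * (Real.sin ψ / Real.cos ψ ^ 5) := by
  have hpi := Real.pi_pos
  have hs0 : 0 ≤ Real.sin ψ := Real.sin_nonneg_of_nonneg_of_le_pi h0 (by linarith)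
  have hc : √3 / 2 ≤ Real.cos ψ := by
    rw [← Real.cos_pi_div_six]
    exact Real.cos_le_cos_of_nonneg_of_le_pi h0 (by linarith) (by linarith)
  have h3 : (1 : ℝ) ≤ √3 := by
    rw [Real.one_le_sqrt]; norm_num
  have hc0 : 0 < Real.cos ψ := by linarith
  have hc3 : 0 ≤ Real.cos (ψ + π / 3) :=
    Real.cos_nonneg_of_mem_Icc ⟨by linarith, by linarith⟩
  have hs3 : 0 ≤ Real.sin (ψ + π / 3) :=
    Real.sin_nonneg_of_nonneg_of_le_pi (by linarith) (by linarith)
  have ea : ax ψ = Real.cos ψ := by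
    unfold ax rg
    have : Real.cos (ψ + π / 3) ≤ Real.cos ψ := by
      rw [cos_add_third]
      have : 0 ≤ √3 / 2 * Real.sin ψ := by positivity
      linarith
    rw [max_eq_left this, min_eq_right this, max_eq_right hc0.le, min_eq_left hc3]
    ring
  have eb : ay ψ = Real.sin (ψ + π / 3) := by
    unfold ay rg
    have : Real.sin ψ ≤ Real.sin (ψ + π / 3) := by
      apply Real.sin_le_sin_of_le_of_le_pi_div_two <;> linarith
    rw [max_eq_right this, min_eq_left this, max_eq_right hs3, min_eq_left hs0]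
    ring
  have hab : Real.sin (ψ + π / 3) ≤ Real.cos ψ := by
    have : Real.sin (ψ + π / 3) = Real.cos (π / 6 - ψ) := by
      rw [← Real.cos_pi_div_two_sub]
      congr 1
      ring
    rw [this]
    exact Real.cos_le_cos_of_nonneg_of_le_pi h0 (by linarith) (by linarith)
  unfold P
  rw [ea, eb, J_eq hab (by linarith), sin_add_third]
  field_simp
  ring

lemma integral_P : ∫ ψ in (-π)..π, P ψ = (267 - 152 * √3) / 30 := by
  have hpi := Real.pi_pos
  have hi : ∀ a b : ℝ, IntervalIntegrable P volume a b :=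
    fun a b => continuous_P.intervalIntegrable a b
  have k1 : ∫ ψ in (-π)..π, P ψ = 6 * ∫ ψ in (0 : ℝ)..(π / 3), P ψ := by
    have := P_periodic.intervalIntegral_add_zsmul_eq 6 (-π) (fun t₁ t₂ => hi t₁ t₂)
    have e : -π + (6 : ℤ) • (π / 3) = π := by
      simp only [zsmul_eq_mul]; push_cast; ring
    rw [e] at this
    rw [this, P_periodic.intervalIntegral_add_eq (-π) 0, zero_add]
    simp only [zsmul_eq_mul]
    push_cast
    ring
  have k2 : ∫ ψ in (0 : ℝ)..(π / 3), P ψ = 2 * ∫ ψ in (0 : ℝ)..(π / 6), P ψ := by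
    rw [← intervalIntegral.integral_add_adjacent_intervals (hi 0 (π / 6)) (hi (π / 6) (π / 3))]
    have : ∫ ψ in (π / 6)..(π / 3), P ψ = ∫ ψ in (0 : ℝ)..(π / 6), P ψ := by
      have h := intervalIntegral.integral_comp_sub_left (a := 0) (b := π / 6) P (π / 3)
      have e1 : π / 3 - π / 6 = π / 6 := by ring
      rw [e1, sub_zero] at h
      rw [← h]
      congr 1
      ext ψ
      have : P (π / 3 - ψ) = P (-ψ + π / 3) := by congr 1; ring
      rw [this, P_periodic, P_neg]
    rw [this]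
    ring
  have k3 : ∫ ψ in (0 : ℝ)..(π / 6), P ψ = 2 * ∫ ψ in (0 : ℝ)..(π / 12), P ψ := by
    rw [← intervalIntegral.integral_add_adjacent_intervals (hi 0 (π / 12)) (hi (π / 12) (π / 6))]
    have : ∫ ψ in (π / 12)..(π / 6), P ψ = ∫ ψ in (0 : ℝ)..(π / 12), P ψ := by
      have h := intervalIntegral.integral_comp_sub_left (a := 0) (b := π / 12) P (π / 6)
      have e1 : π / 6 - π / 12 = π / 12 := by ring
      rw [e1, sub_zero] at h
      rw [← h]
      congr 1
      ext ψ
      rw [P_swap]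
    rw [this]
    ring
  have k4 : ∫ ψ in (0 : ℝ)..(π / 12), P ψ =
      ∫ ψ in (0 : ℝ)..(π / 12), ((3 - √3) / 60 * (1 / Real.cos ψ ^ 4) -
        1 / 60 * (Real.sin ψ / Real.cos ψ ^ 5)) := by
    apply intervalIntegral.integral_congr
    intro ψ hψ
    rw [uIcc_of_le (by linarith)] at hψ
    exact P_eq hψ.1 hψ.2
  have hcos : ∀ ψ ∈ uIcc 0 (π / 12), Real.cos ψ ≠ 0 := by
    intro ψ hψ
    rw [uIcc_of_le (by linarith)] at hψ
    exact (Real.cos_pos_of_mem_Ioo ⟨by linarith [hψ.1], by linarith [hψ.2]⟩).ne'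
  have k5 : ∫ ψ in (0 : ℝ)..(π / 12), ((3 - √3) / 60 * (1 / Real.cos ψ ^ 4) -
        1 / 60 * (Real.sin ψ / Real.cos ψ ^ 5)) =
      (fun ψ => (3 - √3) / 60 * (Real.tan ψ + Real.tan ψ ^ 3 / 3) -
        1 / 60 * (Real.tan ψ ^ 2 / 2 + Real.tan ψ ^ 4 / 4)) (π / 12) -
      (fun ψ => (3 - √3) / 60 * (Real.tan ψ + Real.tan ψ ^ 3 / 3) -
        1 / 60 * (Real.tan ψ ^ 2 / 2 + Real.tan ψ ^ 4 / 4)) 0 := by
    refine intervalIntegral.integral_eq_sub_of_hasDerivAt
      (f := fun ψ : ℝ => (3 - √3) / 60 * (Real.tan ψ + Real.tan ψ ^ 3 / 3) -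
        1 / 60 * (Real.tan ψ ^ 2 / 2 + Real.tan ψ ^ 4 / 4))
      (f' := fun ψ : ℝ => (3 - √3) / 60 * (1 / Real.cos ψ ^ 4) -
        1 / 60 * (Real.sin ψ / Real.cos ψ ^ 5)) ?_ ?_
    · intro ψ hψ
      have hc := hcos ψ hψ
      have d1 := Real.hasDerivAt_tan hc
      have d2 := ((d1.add ((d1.pow 3).div_const 3)).const_mul ((3 - √3) / 60)).sub
        ((((d1.pow 2).div_const 2).add ((d1.pow 4).div_const 4)).const_mul (1 / 60))
      refine d2.congr_deriv ?_
      have hc2 : 1 / Real.cos ψ ^ 2 = 1 + Real.tan ψ ^ 2 := by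
        rw [Real.tan_eq_sin_div_cos, div_pow, div_eq_iff (pow_ne_zero 2 hc), add_mul,
          div_mul_cancel₀ _ (pow_ne_zero 2 hc)]
        linarith [Real.sin_sq_add_cos_sq ψ]
      have hc4 : 1 / Real.cos ψ ^ 4 = (1 + Real.tan ψ ^ 2) ^ 2 := by
        rw [← hc2, div_pow, one_pow, ← pow_mul]
      have hs5 : Real.sin ψ / Real.cos ψ ^ 5 = Real.tan ψ * (1 + Real.tan ψ ^ 2) ^ 2 := by
        rw [← hc4, Real.tan_eq_sin_div_cos, div_mul_div_comm, mul_one]
        congr 1
        ring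
      simp only [hc4, hs5, hc2]
      push_cast
      ring
    · apply ContinuousOn.intervalIntegrable
      apply ContinuousOn.sub
      · apply ContinuousOn.mul continuousOn_const
        apply ContinuousOn.div continuousOn_const (by fun_prop)
        intro ψ hψ
        exact pow_ne_zero _ (hcos ψ hψ)
      · apply ContinuousOn.mul continuousOn_const
        apply ContinuousOn.div (by fun_prop) (by fun_prop)
        intro ψ hψ
        exact pow_ne_zero _ (hcos ψ hψ)
  rw [k1, k2, k3, k4, k5]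
  simp only [tan_pi_div_twelve, Real.tan_zero]
  have q2 : (2 - √3) ^ 2 = 7 - 4 * √3 := by nlinarith [s3]
  have q3 : (2 - √3) ^ 3 = 26 - 15 * √3 := by
    rw [pow_succ, q2]; nlinarith [s3]
  have q4 : (2 - √3) ^ 4 = 97 - 56 * √3 := by
    rw [pow_succ, q3]; nlinarith [s3]
  rw [q2, q3, q4]
  nlinarith [s3]

end Pool.Agent.H532R3.Hall
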