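import Pool.Agent.H532R3.Hall.Square

set_option autoImplicit false

open MeasureTheory Set Filter Topology
open scoped ENNReal NNReal Real

namespace Pool.Agent.H532R3.Hall

lemma inner_complex (x y : ℂ) : inner ℝ x y = x.re * y.re + x.im * y.im := by
  rw [Complex.inner]
  simp [Complex.mul_re]
  ring

lemma norm_sq_complex (x : ℂ) : ‖x‖ ^ 2 = x.re ^ 2 + x.im ^ 2 := by
  rw [← Complex.normSq_eq_norm_sq, Complex.normSq_apply]
  ring

lemma angle_le_iff' {x y : ℂ} {φ : ℝ} (hπ : φ ≤ π)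
    (h : InnerProductGeometry.angle x y ≤ φ) : Real.cos φ * (‖x‖ * ‖y‖) ≤ inner ℝ x y := by
  rw [← InnerProductGeometry.cos_angle_mul_norm_mul_norm]
  apply mul_le_mul_of_nonneg_right _ (by positivity)
  exact Real.cos_le_cos_of_nonneg_of_le_pi (InnerProductGeometry.angle_nonneg _ _) hπ h

lemma algebra_core {a b k x : ℝ} (hk : 0 < k) (hk1 : k < 1) (ha : 0 < a) (hb : 0 < b)
    (h1 : k * b ≤ x) (h2 : k * a ≤ 1 - x) (h3 : k * (a * b) ≤ b ^ 2 - x)
    (h4 : a ^ 2 = b ^ 2 - 2 * x + 1) :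
    k / (1 - k) ≤ a ∧ k / (1 - k) ≤ b ∧ a ≤ (1 - k) / k ∧ b ≤ (1 - k) / k := by
  have hk2 : 0 < 1 - k := by linarith
  have e1 : k * (1 + a) ≤ b := by
    have : k * (1 + a) * b ≤ b * b := by nlinarith
    exact le_of_mul_le_mul_right this hb
  have e2 : k * (1 + b) ≤ a := by
    have : k * (1 + b) * a ≤ a * a := by nlinarith
    exact le_of_mul_le_mul_right this ha
  have e3 : k * (a + b) ≤ 1 := by nlinarith
  have hk3 : 0 < 1 + k := by linarith
  refine ⟨?_, ?_, ?_, ?_⟩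
  · rw [div_le_iff₀ hk2]
    have : k * (1 + k) ≤ a * (1 - k) * (1 + k) := by nlinarith
    exact le_of_mul_le_mul_right this hk3
  · rw [div_le_iff₀ hk2]
    have : k * (1 + k) ≤ b * (1 - k) * (1 + k) := by nlinarith
    exact le_of_mul_le_mul_right this hk3
  · rw [le_div_iff₀ hk]
    have : a * k * (1 + k) ≤ (1 - k) * (1 + k) := by nlinarith
    exact le_of_mul_le_mul_right this hk3
  · rw [le_div_iff₀ hk]
    have : b * k * (1 + k) ≤ (1 - k) * (1 + k) := by nlinarith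
    exact le_of_mul_le_mul_right this hk3

lemma sq_bounds {a η : ℝ} (h0 : 0 < η) (h1 : η ≤ 1) (lo : 1 - η ≤ a) (hi : a ≤ 1 + η) :
    1 - 2 * η ≤ a ^ 2 ∧ a ^ 2 ≤ 1 + 3 * η := by
  constructor <;> nlinarith

lemma x2_bounds {x η : ℝ} (h0 : 0 < η) (h1 : η ≤ 1) (lo : 1 / 2 - 5 / 2 * η ≤ x)
    (hi : x ≤ 1 / 2 + 5 / 2 * η) : 1 / 4 - 9 * η ≤ x ^ 2 ∧ x ^ 2 ≤ 1 / 4 + 9 * η := by
  have h2 : |x - 1 / 2| ≤ 5 / 2 * η := by rw [abs_le]; constructor <;> linarith
  have h3 : |x + 1 / 2| ≤ 7 / 2 := by rw [abs_le]; constructor <;> linarith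
  have h4 : |(x - 1 / 2) * (x + 1 / 2)| ≤ 5 / 2 * η * (7 / 2) := by
    rw [abs_mul]
    exact mul_le_mul h2 h3 (abs_nonneg _) (by linarith)
  have h5 : (x - 1 / 2) * (x + 1 / 2) = x ^ 2 - 1 / 4 := by ring
  rw [h5, abs_le] at h4
  constructor <;> linarith [h4.1, h4.2]

lemma near_core {φ : ℝ} (h0 : π / 3 < φ) (h1 : φ < π / 2) {η : ℝ} (hη1 : η ≤ 1)
    (hη : (1 - 2 * Real.cos φ) / Real.cos φ ≤ η) {ζ : ℂ} (hζ : ζ ∈ A φ) :
    dist ζ z0 ≤ 23 * η ∨ dist ζ (starRingEnd ℂ z0) ≤ 23 * η := by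
  have hpi := Real.pi_pos
  have hk : 0 < Real.cos φ := Real.cos_pos_of_mem_Ioo ⟨by linarith, h1⟩
  have hk2 : Real.cos φ < 1 / 2 := by
    rw [← Real.cos_pi_div_three]
    exact Real.cos_lt_cos_of_nonneg_of_le_pi (by linarith) (by linarith) h0
  simp only [A, mem_ofPred_eq, largestAngle_eq, max_le_iff, sub_zero, zero_sub] at hζ
  obtain ⟨a1, a2, a3⟩ := hζ
  have hζ0 : ζ ≠ 0 := by
    rintro rfl
    rw [InnerProductGeometry.angle_zero_right] at a1
    linarith
  have hζ1 : ζ - 1 ≠ 0 := by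
    intro h
    rw [h, InnerProductGeometry.angle_zero_right] at a2
    linarith
  have b1 := angle_le_iff' (by linarith) a1
  have b2 := angle_le_iff' (by linarith) a2
  have b3 := angle_le_iff' (by linarith) a3
  rw [inner_complex] at b1 b2 b3
  simp only [Complex.one_re, Complex.one_im, Complex.neg_re, Complex.neg_im, Complex.sub_re,
    Complex.sub_im, norm_one, norm_neg] at b1 b2 b3
  have nb := norm_sq_complex ζ
  have na := norm_sq_complex (ζ - 1)
  simp only [Complex.sub_re, Complex.sub_im, Complex.one_re, Complex.one_im] at na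
  have e : ‖1 - ζ‖ = ‖ζ - 1‖ := norm_sub_rev _ _
  rw [e] at b3
  have hb : 0 < ‖ζ‖ := norm_pos_iff.mpr hζ0
  have ha : 0 < ‖ζ - 1‖ := norm_pos_iff.mpr hζ1
  set a := ‖ζ - 1‖ with hadef
  set b := ‖ζ‖ with hbdef
  set k := Real.cos φ with hkdef
  have q1 : k * b ≤ ζ.re := by linarith
  have q2 : k * a ≤ 1 - ζ.re := by linarith
  have q3 : k * (a * b) ≤ b ^ 2 - ζ.re := by
    have e1 : -ζ.re * (1 - ζ.re) + -ζ.im * (0 - ζ.im) = b ^ 2 - ζ.re := by
      rw [nb]; ring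
    rw [e1, mul_comm b a] at b3
    exact b3
  have q4 : a ^ 2 = b ^ 2 - 2 * ζ.re + 1 := by linear_combination na - nb
  clear b1 b2 b3 a1 a2 a3
  obtain ⟨c1, c2, c3, c4⟩ := algebra_core hk (by linarith) ha hb q1 q2 q3 q4
  have hη0 : 0 < η := lt_of_lt_of_le (div_pos (by linarith) hk) hη
  have d1 : (1 - k) / k ≤ 1 + η := by
    have : (1 - k) / k = 1 + (1 - 2 * k) / k := by field_simp; ring
    rw [this]; linarith
  have d2 : 1 / (1 + η) ≤ k / (1 - k) := by
    rw [div_le_div_iff₀ (by linarith) (by linarith)]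
    rw [div_le_iff₀ hk] at d1
    nlinarith
  have d3 : 1 - η ≤ 1 / (1 + η) := by
    rw [le_div_iff₀ (by linarith)]
    nlinarith
  have a_lo : 1 - η ≤ a := by linarith
  have a_hi : a ≤ 1 + η := by linarith
  have b_lo : 1 - η ≤ b := by linarith
  have b_hi : b ≤ 1 + η := by linarith
  obtain ⟨a2_lo, a2_hi⟩ := sq_bounds hη0 hη1 a_lo a_hi
  obtain ⟨b2_lo, b2_hi⟩ := sq_bounds hη0 hη1 b_lo b_hi
  have x_eq : 2 * ζ.re = 1 + b ^ 2 - a ^ 2 := by linear_combination na - nb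
  have x_lo : 1 / 2 - 5 / 2 * η ≤ ζ.re := by linarith
  have x_hi : ζ.re ≤ 1 / 2 + 5 / 2 * η := by linarith
  have y2 : ζ.im ^ 2 = b ^ 2 - ζ.re ^ 2 := by linarith
  obtain ⟨x2_lo, x2_hi⟩ := x2_bounds hη0 hη1 x_lo x_hi
  have y2_hi : ζ.im ^ 2 ≤ 3 / 4 + 12 * η := by linarith
  have y2_lo : 3 / 4 - 12 * η ≤ ζ.im ^ 2 := by linarith
  have h3 : (17 : ℝ) / 10 ≤ √3 := by
    apply Real.le_sqrt_of_sq_le; norm_num
  have hs := s3
  have key : |(|ζ.im|) - √3 / 2| ≤ 15 * η := by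
    have hy : |ζ.im| ^ 2 = ζ.im ^ 2 := sq_abs _
    have hy0 : 0 ≤ |ζ.im| := abs_nonneg _
    have hfac : (|ζ.im| - √3 / 2) * (|ζ.im| + √3 / 2) = ζ.im ^ 2 - 3 / 4 := by
      have : (|ζ.im| - √3 / 2) * (|ζ.im| + √3 / 2) = |ζ.im| ^ 2 - √3 * √3 / 4 := by ring
      rw [this, hy, hs]
    have hsum : (17 / 20 : ℝ) ≤ |ζ.im| + √3 / 2 := by linarith
    rw [abs_le]
    constructor
    · by_contra hcon
      push Not at hcon
      have h5 : 15 * η * (17 / 20) ≤ (√3 / 2 - |ζ.im|) * (|ζ.im| + √3 / 2) :=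
        mul_le_mul (by linarith) hsum (by norm_num) (by linarith)
      have h6 : (√3 / 2 - |ζ.im|) * (|ζ.im| + √3 / 2) = -(ζ.im ^ 2 - 3 / 4) := by
        rw [← hfac]; ring
      rw [h6] at h5
      linarith
    · by_contra hcon
      push Not at hcon
      have h5 : 15 * η * (17 / 20) ≤ (|ζ.im| - √3 / 2) * (|ζ.im| + √3 / 2) :=
        mul_le_mul (by linarith) hsum (by norm_num) (by linarith)
      rw [hfac] at h5
      linarith
  have hdist : ∀ w : ℂ, dist ζ w ≤ |ζ.re - w.re| + |ζ.im - w.im| := by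
    intro w
    rw [dist_eq_norm]
    exact Complex.norm_le_abs_re_add_abs_im (ζ - w)
  have hx : |ζ.re - 1 / 2| ≤ 5 / 2 * η := by
    rw [abs_le]; constructor <;> linarith
  rcases le_total 0 ζ.im with hy | hy
  · left
    rw [abs_of_nonneg hy] at key
    refine (hdist z0).trans ?_
    have : |ζ.re - z0.re| + |ζ.im - z0.im| = |ζ.re - 1 / 2| + |ζ.im - √3 / 2| := rfl
    rw [this]
    linarith
  · right
    rw [abs_of_nonpos hy] at key
    refine (hdist _).trans ?_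
    have : |ζ.re - (starRingEnd ℂ z0).re| + |ζ.im - (starRingEnd ℂ z0).im| =
        |ζ.re - 1 / 2| + |-ζ.im - √3 / 2| := by
      rw [Complex.conj_re, Complex.conj_im]
      have e2 : ζ.im - -z0.im = -(-ζ.im - √3 / 2) := by
        unfold z0; ring
      rw [e2, abs_neg]
      rfl
    rw [this]
    linarith

lemma A_near {ε : ℝ} (hε : 0 < ε) : ∀ᶠ φ in 𝓝[>] (π / 3), ∀ ζ ∈ A φ,
    dist ζ z0 < ε ∨ dist ζ (starRingEnd ℂ z0) < ε := by
  have hpi := Real.pi_pos
  set η : ℝ := min 1 (ε / 24) with hη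
  have hη0 : 0 < η := lt_min one_pos (by positivity)
  have hc : ContinuousAt (fun φ : ℝ => (1 - 2 * Real.cos φ) / Real.cos φ) (π / 3) := by
    apply ContinuousAt.div
    · fun_prop
    · fun_prop
    · rw [Real.cos_pi_div_three]; norm_num
  have hlim : ∀ᶠ φ in 𝓝 (π / 3), (1 - 2 * Real.cos φ) / Real.cos φ < η := by
    apply hc.eventually_lt_const
    have : (1 - 2 * Real.cos (π / 3)) / Real.cos (π / 3) = 0 := by
      rw [Real.cos_pi_div_three]; norm_num
    simp only [this]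
    exact hη0
  have hlt : ∀ᶠ φ : ℝ in 𝓝 (π / 3), φ < π / 2 := eventually_lt_nhds (by linarith)
  filter_upwards [nhdsWithin_le_nhds hlim, nhdsWithin_le_nhds hlt, self_mem_nhdsWithin]
    with φ h1 h2 h3 ζ hζ
  have h4 : 23 * η < ε := by
    have : η ≤ ε / 24 := min_le_right _ _
    linarith
  rcases near_core h3 h2 (min_le_left _ _) h1.le hζ with h | h
  · left; linarith
  · right; linarith

lemma angle_eq_of {x y : ℂ} (hx : ‖x‖ = 1) (hy : ‖y‖ = 1) (h : inner ℝ x y = 1 / 2) :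
    InnerProductGeometry.angle x y = π / 3 := by
  unfold InnerProductGeometry.angle
  rw [hx, hy, h]
  have : (1 / 2 / (1 * 1) : ℝ) = Real.cos (π / 3) := by
    rw [Real.cos_pi_div_three]; norm_num
  rw [this, Real.arccos_cos (by positivity) (by linarith [Real.pi_pos])]

lemma norm_one_of {x : ℂ} (h : x.re ^ 2 + x.im ^ 2 = 1) : ‖x‖ = 1 := by
  have := norm_sq_complex x
  rw [h] at this
  have h0 := norm_nonneg x
  nlinarith

lemma volume_A_pos {φ : ℝ} (hφ : π / 3 < φ) : 0 < volume (A φ) := by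
  have hs := s3
  have n0 : ‖z0‖ = 1 := norm_one_of (by unfold z0; nlinarith)
  have n1 : ‖z0 - 1‖ = 1 := by
    apply norm_one_of
    simp only [Complex.sub_re, Complex.sub_im, Complex.one_re, Complex.one_im]
    unfold z0; nlinarith
  have v1 : InnerProductGeometry.angle (1 : ℂ) z0 = π / 3 := by
    apply angle_eq_of norm_one n0
    rw [inner_complex]; unfold z0; simp
  have v2 : InnerProductGeometry.angle (-1 : ℂ) (z0 - 1) = π / 3 := by
    apply angle_eq_of (by rw [norm_neg, norm_one]) n1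
    rw [inner_complex]; unfold z0; simp; norm_num
  have v3 : InnerProductGeometry.angle (-z0) (1 - z0) = π / 3 := by
    apply angle_eq_of (by rw [norm_neg, n0]) (by rw [norm_sub_rev, n1])
    rw [inner_complex]; unfold z0; simp; nlinarith
  have z00 : z0 ≠ 0 := by
    intro h; rw [h, norm_zero] at n0; norm_num at n0
  have z01 : z0 - 1 ≠ 0 := by
    intro h; rw [h, norm_zero] at n1; norm_num at n1
  have z02 : 1 - z0 ≠ 0 := by
    intro h; apply z01; rw [← neg_sub, h, neg_zero]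
  have cA : ∀ (f g : ℂ → ℂ), Continuous f → Continuous g → f z0 ≠ 0 → g z0 ≠ 0 →
      ContinuousAt (fun ζ => InnerProductGeometry.angle (f ζ) (g ζ)) z0 := by
    intro f g hf hg h1 h2
    have h3 := InnerProductGeometry.continuousAt_angle (x := (f z0, g z0)) h1 h2
    exact ContinuousAt.comp (f := fun ζ => (f ζ, g ζ)) h3 (hf.prodMk hg).continuousAt
  have w1 := (cA (fun _ => 1) (fun ζ => ζ) continuous_const continuous_id one_ne_zero z00
    ).eventually_lt_const (v1.trans_lt hφ)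
  have w2 := (cA (fun _ => -1) (fun ζ => ζ - 1) continuous_const (by fun_prop)
    (neg_ne_zero.mpr one_ne_zero) z01).eventually_lt_const (v2.trans_lt hφ)
  have w3 := (cA (fun ζ => -ζ) (fun ζ => 1 - ζ) (by fun_prop) (by fun_prop)
    (neg_ne_zero.mpr z00) z02).eventually_lt_const (v3.trans_lt hφ)
  refine Measure.measure_pos_of_mem_nhds (volume : Measure ℂ) (x := z0) ?_
  filter_upwards [w1, w2, w3] with ζ h1 h2 h3
  simp only [A, mem_ofPred_eq, largestAngle_eq, max_le_iff, sub_zero, zero_sub]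
  exact ⟨h1.le, h2.le, h3.le⟩

end Pool.Agent.H532R3.Hall
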