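import Pool.Agent.H532R3.Hall.Geo

set_option autoImplicit false

open MeasureTheory Set Filter Topology
open scoped ENNReal NNReal Real

namespace Pool.Agent.H532R3.Hall

/-- the closed unit square in the Euclidean plane. -/
def unitSquare : Set (EuclideanSpace ℝ (Fin 2)) := {x | ∀ i, 0 ≤ x i ∧ x i ≤ 1}

lemma measurableSet_unitSquare : MeasurableSet unitSquare := by
  have : unitSquare = ⋂ i : Fin 2, {x : EuclideanSpace ℝ (Fin 2) | 0 ≤ x i ∧ x i ≤ 1} := by
    ext x; simp [unitSquare]
  rw [this]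
  refine MeasurableSet.iInter fun i => ?_
  have h1 : MeasurableSet {x : EuclideanSpace ℝ (Fin 2) | 0 ≤ x i} :=
    measurableSet_le (by fun_prop) (by fun_prop)
  have h2 : MeasurableSet {x : EuclideanSpace ℝ (Fin 2) | x i ≤ 1} :=
    measurableSet_le (by fun_prop) (by fun_prop)
  exact h1.inter h2

lemma preimage_square : Complex.orthonormalBasisOneI.repr ⁻¹' unitSquare = Q := by
  ext z
  simp only [mem_preimage, unitSquare, Q, mem_ofPred_eq, Fin.forall_fin_two]
  have h0 : Complex.orthonormalBasisOneI.repr z 0 = z.re := by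
    rw [Complex.orthonormalBasisOneI_repr_apply]; rfl
  have h1 : Complex.orthonormalBasisOneI.repr z 1 = z.im := by
    rw [Complex.orthonormalBasisOneI_repr_apply]; rfl
  rw [h0, h1]

lemma preimage_ball : Complex.orthonormalBasisOneI.repr ⁻¹'
    (Metric.ball (0 : EuclideanSpace ℝ (Fin 2)) 1) = Metric.ball (0 : ℂ) 1 := by
  ext z
  simp only [mem_preimage, mem_ball_zero_iff, LinearIsometryEquiv.norm_map]

lemma numeric : hr z0 < 1225 / 10000 * π ^ 2 ∧ 1225 / 10000 < HQr z0 := by
  rw [hr_z0, HQr_z0]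
  have h1 : (1.73205 : ℝ) ≤ √3 := by apply Real.le_sqrt_of_sq_le; norm_num
  have h2 : √3 ≤ 1.73206 := by
    rw [Real.sqrt_le_left (by norm_num)]; norm_num
  have p1 := Real.pi_gt_d4
  have p2 := Real.pi_lt_d4
  constructor
  · nlinarith
  · linarith

lemma volume_disc : volume (Metric.ball (0 : ℂ) 1) = ENNReal.ofReal π := by
  rw [Complex.volume_ball]
  simp
  rw [← NNReal.coe_real_pi, ENNReal.ofReal_coe_nnreal]

theorem square_beats_disc : ∀ᶠ φ in 𝓝[>] (π / 3),
    F (Metric.ball (0 : EuclideanSpace ℝ (Fin 2)) 1) φ < F unitSquare φ := by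
  have hpi := Real.pi_pos
  obtain ⟨n1, n2⟩ := numeric
  obtain ⟨m1, hm1, hm1'⟩ := exists_between n1
  have hc1 : ∀ᶠ ζ in 𝓝 z0, hr ζ < m1 ∧ 1225 / 10000 < HQr ζ ∧ 1 / 4 < Complex.normSq ζ := by
    refine (continuous_hr.continuousAt.eventually_lt_const hm1).and
      ((continuous_HQr.continuousAt.eventually_const_lt n2).and ?_)
    apply (by fun_prop : Continuous fun ζ : ℂ => Complex.normSq ζ).continuousAt.eventually_const_lt
    change (1 / 4 : ℝ) < Complex.normSq z0
    rw [normSq_z0]; norm_num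
  obtain ⟨ε, hε, hball⟩ := Metric.eventually_nhds_iff.mp hc1
  have hall : ∀ ζ : ℂ, (dist ζ z0 < ε ∨ dist ζ (starRingEnd ℂ z0) < ε) →
      hr ζ < m1 ∧ 1225 / 10000 < HQr ζ ∧ 1 / 4 < Complex.normSq ζ := by
    rintro ζ (h | h)
    · exact hball h
    · have : dist (starRingEnd ℂ ζ) z0 < ε := by
        rw [← Complex.dist_conj_conj, Complex.conj_conj]
        exact h
      have := hball this
      rwa [hr_conj, HQr_conj, Complex.normSq_conj] at this
  filter_upwards [A_near hε, self_mem_nhdsWithin] with φ hA hφ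
  rw [mem_Ioi] at hφ
  rw [F_transfer _ measurableSet_unitSquare, F_transfer _ Metric.isOpen_ball.measurableSet,
    preimage_square, preimage_ball, F_eq, F_eq, volume_Q, volume_disc]
  have hAm := measurableSet_A φ
  have hpos := volume_A_pos hφ
  have hfin : volume (A φ) < ∞ := by
    have hsub : A φ ⊆ Metric.ball z0 ε ∪ Metric.ball (starRingEnd ℂ z0) ε := by
      intro ζ hζ
      rcases hA ζ hζ with h | h
      · left; exact h
      · right; exact h
    exact (measure_mono hsub).trans_lt (measure_union_lt_top measure_ball_lt_top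
      measure_ball_lt_top)
  have hQ : ENNReal.ofReal (1225 / 10000) * volume (A φ) ≤ volume (T Q φ) := by
    rw [volume_T_Q, ← setLIntegral_const]
    apply setLIntegral_mono' hAm
    intro ζ hζ
    exact (ENNReal.ofReal_le_ofReal (hall ζ (hA ζ hζ)).2.1.le).trans (HQ_ge ζ)
  have hD : volume (T (Metric.ball (0 : ℂ) 1) φ) ≤
      3 * (ENNReal.ofReal (π / 3) * (ENNReal.ofReal m1 * volume (A φ))) := by
    refine (T_ball_le φ).trans ?_
    gcongr
    rw [volume_G]
    gcongr
    · exact c4_le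
    · rw [← setLIntegral_const]
      apply setLIntegral_mono' hAm
      intro ζ hζ
      have := hall ζ (hA ζ hζ)
      exact (h_le ζ this.2.2.le).trans (ENNReal.ofReal_le_ofReal this.1.le)
  have hTQfin : volume (T Q φ) ≠ ∞ := by
    have hsub : T Q φ ⊆ Q ×ˢ (Q ×ˢ Q) := by
      intro p hp
      exact ⟨hp.1, hp.2.1, hp.2.2.1⟩
    refine ((measure_mono hsub).trans_lt ?_).ne
    rw [Measure.volume_eq_prod, Measure.prod_prod, Measure.volume_eq_prod, Measure.prod_prod,
      volume_Q]
    norm_num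
  have hm1pos : 0 ≤ m1 := by
    have h0 : 0 ≤ hr z0 := by
      unfold hr
      apply intervalIntegral.integral_nonneg (by linarith)
      intro ψ _
      positivity
    linarith
  set v : ℝ := (volume (A φ)).toReal with hv
  have hv0 : 0 < v := ENNReal.toReal_pos hpos.ne' hfin.ne
  have r1 : 1225 / 10000 * v ≤ (volume (T Q φ)).toReal := by
    have := ENNReal.toReal_mono hTQfin hQ
    rwa [ENNReal.toReal_mul, ENNReal.toReal_ofReal (by norm_num)] at this
  have r2 : (volume (T (Metric.ball (0 : ℂ) 1) φ)).toReal ≤ π * (m1 * v) := by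
    have htop : 3 * (ENNReal.ofReal (π / 3) * (ENNReal.ofReal m1 * volume (A φ))) ≠ ∞ := by
      finiteness
    have := ENNReal.toReal_mono htop hD
    rw [ENNReal.toReal_mul, ENNReal.toReal_mul, ENNReal.toReal_mul,
      ENNReal.toReal_ofReal (by positivity), ENNReal.toReal_ofReal hm1pos] at this
    have e : (3 : ℝ≥0∞).toReal = 3 := by norm_num
    rw [e, ← hv] at this
    linarith
  rw [inv_one, one_mul, one_mul, one_mul]
  rw [ENNReal.toReal_mul, ENNReal.toReal_mul, ENNReal.toReal_mul, ENNReal.toReal_inv,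
    ENNReal.toReal_ofReal hpi.le]
  refine lt_of_lt_of_le ?_ r1
  calc π⁻¹ * (π⁻¹ * π⁻¹) * (volume (T (Metric.ball (0 : ℂ) 1) φ)).toReal
      ≤ π⁻¹ * (π⁻¹ * π⁻¹) * (π * (m1 * v)) := by gcongr
    _ = m1 / π ^ 2 * v := by field_simp
    _ < 1225 / 10000 * v := by
        apply mul_lt_mul_of_pos_right _ hv0
        rw [div_lt_iff₀ (by positivity)]
        exact hm1'

lemma unitSquare_convex : Convex ℝ unitSquare := by
  intro x hx y hy a b ha hb hab i
  have h1 := hx i
  have h2 := hy i
  simp only [PiLp.add_apply, PiLp.smul_apply, smul_eq_mul]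
  constructor
  · have := mul_nonneg ha h1.1
    have := mul_nonneg hb h2.1
    linarith
  · have := mul_le_mul_of_nonneg_left h1.2 ha
    have := mul_le_mul_of_nonneg_left h2.2 hb
    linarith

lemma unitSquare_bounded : Bornology.IsBounded unitSquare := by
  rw [isBounded_iff_forall_norm_le]
  refine ⟨2, fun x hx => ?_⟩
  rw [EuclideanSpace.norm_eq, Fin.sum_univ_two]
  have h0 := hx 0
  have h1 := hx 1
  rw [Real.sqrt_le_left (by norm_num)]
  rw [Real.norm_eq_abs, Real.norm_eq_abs, sq_abs, sq_abs]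
  nlinarith

lemma unitSquare_interior : (interior unitSquare).Nonempty := by
  have hopen : IsOpen {x : EuclideanSpace ℝ (Fin 2) | ∀ i, 0 < x i ∧ x i < 1} := by
    have : {x : EuclideanSpace ℝ (Fin 2) | ∀ i, 0 < x i ∧ x i < 1} =
        ⋂ i : Fin 2, {x : EuclideanSpace ℝ (Fin 2) | 0 < x i ∧ x i < 1} := by
      ext x; simp
    rw [this]
    refine isOpen_iInter_of_finite fun i => ?_
    have h1 : IsOpen {x : EuclideanSpace ℝ (Fin 2) | 0 < x i} :=
      isOpen_lt (by fun_prop) (by fun_prop)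
    have h2 : IsOpen {x : EuclideanSpace ℝ (Fin 2) | x i < 1} :=
      isOpen_lt (by fun_prop) (by fun_prop)
    exact h1.inter h2
  have hsub : {x : EuclideanSpace ℝ (Fin 2) | ∀ i, 0 < x i ∧ x i < 1} ⊆ unitSquare :=
    fun x hx i => ⟨(hx i).1.le, (hx i).2.le⟩
  refine ⟨WithLp.toLp 2 (fun _ => (1 / 2 : ℝ)), interior_maximal hsub hopen ?_⟩
  intro i
  constructor <;> norm_num

end Pool.Agent.H532R3.Hall
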