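import Pool.Agent.H532R3.Hall.Disc

set_option autoImplicit false

open MeasureTheory Set Filter Topology
open scoped ENNReal NNReal Real

namespace Pool.Agent.H532R3.Hall

lemma polar (f : ℂ → ℝ≥0∞) (hf : Measurable f) :
    ∫⁻ z, f z = ∫⁻ ψ in Ioo (-π) π, ∫⁻ r in Ioi (0 : ℝ), ENNReal.ofReal r *
      f (r * (Real.cos ψ + Real.sin ψ * Complex.I)) := by
  rw [← Complex.lintegral_comp_polarCoord_symm]
  have ht : _root_.polarCoord.target = Ioi (0 : ℝ) ×ˢ Ioo (-π) π := rfl
  rw [ht, Measure.volume_eq_prod, ← Measure.prod_restrict, lintegral_prod_symm]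
  · simp only [Complex.polarCoord_symm_apply, smul_eq_mul]
  · refine Measurable.aemeasurable ?_
    simp only [Complex.polarCoord_symm_apply, smul_eq_mul]
    fun_prop

lemma lint_pow (n : ℕ) {R : ℝ} (hR : 0 ≤ R) :
    ∫⁻ r in Ioc (0 : ℝ) R, ENNReal.ofReal (r ^ n) = ENNReal.ofReal (R ^ (n + 1) / (n + 1)) := by
  rw [← ofReal_integral_eq_lintegral_ofReal]
  · rw [← intervalIntegral.integral_of_le hR, integral_pow]
    simp
  · exact (continuous_pow n).integrableOn_Ioc
  · filter_upwards [ae_restrict_mem measurableSet_Ioc] with r hr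
    exact pow_nonneg hr.1.le n

lemma normSq_circle (r ψ : ℝ) :
    Complex.normSq (r * (Real.cos ψ + Real.sin ψ * Complex.I)) = r ^ 2 := by
  rw [Complex.normSq_mul, Complex.normSq_ofReal]
  have : Complex.normSq ((Real.cos ψ : ℂ) + Real.sin ψ * Complex.I) = 1 := by
    rw [Complex.normSq_add_mul_I]
    exact Real.cos_sq_add_sin_sq ψ
  rw [this]
  ring

lemma re_aux (r c s : ℝ) (ζ : ℂ) :
    (1 * (starRingEnd ℂ) ((r : ℂ) * (c + s * Complex.I) * ζ)).re = r * (c * ζ.re - s * ζ.im) := by
  simp [Complex.mul_re, Complex.mul_im]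
  ring

lemma re_aux1 (r c s : ℝ) :
    (1 * (starRingEnd ℂ) ((r : ℂ) * (c + s * Complex.I))).re = r * c := by
  simp [Complex.mul_re]

lemma c4_le : c4 ≤ ENNReal.ofReal (π / 3) := by
  unfold c4
  rw [← lintegral_indicator Metric.isOpen_ball.measurableSet, polar _
    ((by fun_prop : Measurable fun X : ℂ => ENNReal.ofReal (Complex.normSq X) ^ 2).indicator
      Metric.isOpen_ball.measurableSet)]
  have h1 : ∀ ψ : ℝ, ∫⁻ r in Ioi (0 : ℝ), ENNReal.ofReal r *
      (Metric.ball (0 : ℂ) 1).indicator (fun X => ENNReal.ofReal (Complex.normSq X) ^ 2)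
        (r * (Real.cos ψ + Real.sin ψ * Complex.I)) ≤ ENNReal.ofReal (1 / 6) := by
    intro ψ
    calc ∫⁻ r in Ioi (0 : ℝ), ENNReal.ofReal r *
            (Metric.ball (0 : ℂ) 1).indicator (fun X => ENNReal.ofReal (Complex.normSq X) ^ 2)
            (r * (Real.cos ψ + Real.sin ψ * Complex.I))
        ≤ ∫⁻ r in Ioi (0 : ℝ), (Ioc (0 : ℝ) 1).indicator (fun r => ENNReal.ofReal (r ^ 5)) r := by
          apply setLIntegral_mono' measurableSet_Ioi
          intro r hr
          by_cases hm : (r * (Real.cos ψ + Real.sin ψ * Complex.I) : ℂ) ∈ Metric.ball (0 : ℂ) 1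
          · rw [indicator_of_mem hm, normSq_circle]
            rw [mem_ball_zero_iff] at hm
            have h2 : r ^ 2 < 1 := by
              rw [← normSq_circle r ψ, Complex.normSq_eq_norm_sq]
              nlinarith [norm_nonneg ((r : ℂ) * (Real.cos ψ + Real.sin ψ * Complex.I))]
            have h3 : r ≤ 1 := by
              rw [mem_Ioi] at hr
              nlinarith
            rw [indicator_of_mem (show r ∈ Ioc (0 : ℝ) 1 from ⟨hr, h3⟩)]
            rw [← ENNReal.ofReal_pow (by positivity), ← ENNReal.ofReal_mul (le_of_lt hr)]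
            apply le_of_eq
            congr 1
            ring
          · rw [indicator_of_notMem hm, mul_zero]
            exact zero_le
      _ ≤ ∫⁻ r, (Ioc (0 : ℝ) 1).indicator (fun r => ENNReal.ofReal (r ^ 5)) r :=
          setLIntegral_le_lintegral _ _
      _ = ENNReal.ofReal (1 / 6) := by
          rw [lintegral_indicator measurableSet_Ioc, lint_pow 5 zero_le_one]
          norm_num
  calc ∫⁻ ψ in Ioo (-π) π, ∫⁻ r in Ioi (0 : ℝ), ENNReal.ofReal r *
            (Metric.ball (0 : ℂ) 1).indicator (fun X => ENNReal.ofReal (Complex.normSq X) ^ 2)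
            (r * (Real.cos ψ + Real.sin ψ * Complex.I))
      ≤ ∫⁻ ψ in Ioo (-π) π, ENNReal.ofReal (1 / 6) := lintegral_mono fun ψ => h1 ψ
    _ = ENNReal.ofReal (π / 3) := by
        rw [setLIntegral_const, Real.volume_Ioo, ← ENNReal.ofReal_mul (by norm_num)]
        congr 1
        ring

/-- real part of `e^{iψ} ζ` -/
noncomputable def pr (ψ : ℝ) (ζ : ℂ) : ℝ := Real.cos ψ * ζ.re - Real.sin ψ * ζ.im

noncomputable def R (ζ : ℂ) (ψ : ℝ) : ℝ :=
  max 0 (min (2 * Real.cos ψ) (2 * pr ψ ζ / max (Complex.normSq ζ) (1 / 4)))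

noncomputable def hr (ζ : ℂ) : ℝ := ∫ ψ in (-π)..π, R ζ ψ ^ 4 / 4

lemma continuous_R : Continuous fun p : ℂ × ℝ => R p.1 p.2 := by
  unfold R pr
  refine Continuous.max continuous_const (Continuous.min (by fun_prop) ?_)
  refine Continuous.div (by fun_prop) (by fun_prop) ?_
  intro p
  have : (1 / 4 : ℝ) ≤ max (Complex.normSq p.1) (1 / 4) := le_max_right _ _
  positivity

lemma continuous_hr : Continuous hr := by
  unfold hr
  apply intervalIntegral.continuous_parametric_intervalIntegral_of_continuous'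
  have := continuous_R
  exact (this.pow 4).div_const 4

lemma h_le (ζ : ℂ) (hζ : 1 / 4 ≤ Complex.normSq ζ) : h ζ ≤ ENNReal.ofReal (hr ζ) := by
  unfold h
  rw [← lintegral_indicator (measurableSet_K ζ), polar _
    ((by fun_prop : Measurable fun X : ℂ => ENNReal.ofReal (Complex.normSq X)).indicator
      (measurableSet_K ζ))]
  have hM : max (Complex.normSq ζ) (1 / 4) = Complex.normSq ζ := max_eq_left hζ
  have hpos : 0 < Complex.normSq ζ := by linarith
  have h1 : ∀ ψ : ℝ, ∫⁻ r in Ioi (0 : ℝ), ENNReal.ofReal r *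
      (K ζ).indicator (fun X => ENNReal.ofReal (Complex.normSq X))
        (r * (Real.cos ψ + Real.sin ψ * Complex.I)) ≤ ENNReal.ofReal (R ζ ψ ^ 4 / 4) := by
    intro ψ
    have hR0 : 0 ≤ R ζ ψ := le_max_left _ _
    calc ∫⁻ r in Ioi (0 : ℝ), ENNReal.ofReal r *
            (K ζ).indicator (fun X => ENNReal.ofReal (Complex.normSq X))
            (r * (Real.cos ψ + Real.sin ψ * Complex.I))
        ≤ ∫⁻ r in Ioi (0 : ℝ), (Ioc (0 : ℝ) (R ζ ψ)).indicator
            (fun r => ENNReal.ofReal (r ^ 3)) r := by
          apply setLIntegral_mono' measurableSet_Ioi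
          intro r hr
          rw [mem_Ioi] at hr
          by_cases hm : (r * (Real.cos ψ + Real.sin ψ * Complex.I) : ℂ) ∈ K ζ
          · rw [indicator_of_mem hm, normSq_circle]
            obtain ⟨m1, m2⟩ := hm
            have n1 : Complex.normSq (1 - r * (Real.cos ψ + Real.sin ψ * Complex.I)) ≤ 1 := by
              rw [Complex.normSq_eq_norm_sq]
              nlinarith [norm_nonneg (1 - (r : ℂ) * (Real.cos ψ + Real.sin ψ * Complex.I))]
            have n2 : Complex.normSq (1 - r * (Real.cos ψ + Real.sin ψ * Complex.I) * ζ) ≤ 1 := by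
              rw [Complex.normSq_eq_norm_sq]
              nlinarith [norm_nonneg (1 - (r : ℂ) * (Real.cos ψ + Real.sin ψ * Complex.I) * ζ)]
            have o1 : r ≤ 2 * Real.cos ψ := by
              rw [Complex.normSq_sub, normSq_circle, re_aux1, map_one] at n1
              by_contra hcon
              push Not at hcon
              nlinarith
            have o2 : r * Complex.normSq ζ ≤ 2 * pr ψ ζ := by
              rw [Complex.normSq_sub, Complex.normSq_mul, normSq_circle] at n2
              have : (1 * (starRingEnd ℂ) ((r : ℂ) * (Real.cos ψ + Real.sin ψ * Complex.I) * ζ)).re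
                  = r * pr ψ ζ := re_aux _ _ _ _
              rw [this, map_one] at n2
              by_contra hcon
              push Not at hcon
              nlinarith
            have o3 : r ≤ R ζ ψ := by
              unfold R
              rw [hM]
              refine le_max_of_le_right (le_min o1 ?_)
              rw [le_div_iff₀ hpos]
              exact o2
            rw [indicator_of_mem (show r ∈ Ioc (0 : ℝ) (R ζ ψ) from ⟨hr, o3⟩)]
            rw [← ENNReal.ofReal_mul (le_of_lt hr)]
            apply le_of_eq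
            congr 1
            ring
          · rw [indicator_of_notMem hm, mul_zero]
            exact zero_le
      _ ≤ ∫⁻ r, (Ioc (0 : ℝ) (R ζ ψ)).indicator (fun r => ENNReal.ofReal (r ^ 3)) r :=
          setLIntegral_le_lintegral _ _
      _ = ENNReal.ofReal (R ζ ψ ^ 4 / 4) := by
          rw [lintegral_indicator measurableSet_Ioc, lint_pow 3 hR0]
          norm_num
  calc ∫⁻ ψ in Ioo (-π) π, ∫⁻ r in Ioi (0 : ℝ), ENNReal.ofReal r *
            (K ζ).indicator (fun X => ENNReal.ofReal (Complex.normSq X))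
            (r * (Real.cos ψ + Real.sin ψ * Complex.I))
      ≤ ∫⁻ ψ in Ioo (-π) π, ENNReal.ofReal (R ζ ψ ^ 4 / 4) := lintegral_mono fun ψ => h1 ψ
    _ ≤ ∫⁻ ψ in Ioc (-π) π, ENNReal.ofReal (R ζ ψ ^ 4 / 4) :=
        lintegral_mono_set Ioo_subset_Ioc_self
    _ = ENNReal.ofReal (hr ζ) := by
        unfold hr
        rw [intervalIntegral.integral_of_le (by linarith [Real.pi_pos])]
        rw [← ofReal_integral_eq_lintegral_ofReal]
        · have : Continuous fun ψ => R ζ ψ ^ 4 / 4 := by
            have := continuous_R.comp (by fun_prop : Continuous fun ψ : ℝ => (ζ, ψ))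
            exact (this.pow 4).div_const 4
          exact this.integrableOn_Ioc
        · filter_upwards with ψ
          have hR0 : 0 ≤ R ζ ψ := le_max_left _ _
          positivity

end Pool.Agent.H532R3.Hall
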