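import Pool.Agent.H532R3.Hall.Shape

set_option autoImplicit false

open MeasureTheory Set Filter Topology
open scoped ENNReal NNReal Real

namespace Pool.Agent.H532R3.Hall

/-- shapes of triangles with base `[0,1]` and largest angle at most `φ`. -/
def A (φ : ℝ) : Set ℂ := {ζ | largestAngle (0 : ℂ) 1 ζ ≤ φ}

lemma measurableSet_A (φ : ℝ) : MeasurableSet (A φ) := by
  have h0 : MeasurableSet {p : ℂ × ℂ × ℂ | largestAngle p.1 p.2.1 p.2.2 ≤ φ} :=
    measurableSet_le measurable_largestAngle measurable_const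
  have h1 : Measurable fun ζ : ℂ => ((0 : ℂ), (1 : ℂ), ζ) := by fun_prop
  exact h1 h0

lemma largestAngle_similar (X u ζ : ℂ) (hu : u ≠ 0) :
    largestAngle X (X + u) (X + u * ζ) = largestAngle 0 1 ζ := by
  simp only [largestAngle_eq]
  have e1 : X + u - X = u * (1 - 0) := by ring
  have e2 : X + u * ζ - X = u * (ζ - 0) := by ring
  have e3 : X - (X + u) = u * (0 - 1) := by ring
  have e4 : X + u * ζ - (X + u) = u * (ζ - 1) := by ring
  have e5 : X - (X + u * ζ) = u * (0 - ζ) := by ring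
  have e6 : X + u - (X + u * ζ) = u * (1 - ζ) := by ring
  rw [e1, e2, e3, e4, e5, e6, Complex.angle_mul_left hu, Complex.angle_mul_left hu,
    Complex.angle_mul_left hu]

lemma volume_triple {G : Set (ℂ × ℂ × ℂ)} (hG : MeasurableSet G) :
    volume G = ∫⁻ X, ∫⁻ Y, ∫⁻ Z, G.indicator 1 (X, Y, Z) := by
  have h1 : Measurable (G.indicator (1 : ℂ × ℂ × ℂ → ℝ≥0∞)) := measurable_one.indicator hG
  rw [← lintegral_indicator_one hG, Measure.volume_eq_prod, lintegral_prod _ h1.aemeasurable]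
  congr 1
  ext X
  rw [Measure.volume_eq_prod, lintegral_prod _ (by fun_prop)]

/-- the part of triangle configurations whose first vertex is farthest from the origin. -/
def G (φ : ℝ) : Set (ℂ × ℂ × ℂ) :=
  {p | ‖p.1‖ < 1 ∧ ‖p.2.1‖ ≤ ‖p.1‖ ∧ ‖p.2.2‖ ≤ ‖p.1‖ ∧ largestAngle p.1 p.2.1 p.2.2 ≤ φ}

lemma measurableSet_G (φ : ℝ) : MeasurableSet (G φ) := by
  have h1 : MeasurableSet {p : ℂ × ℂ × ℂ | ‖p.1‖ < 1} :=
    measurableSet_lt (by fun_prop) (by fun_prop)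
  have h2 : MeasurableSet {p : ℂ × ℂ × ℂ | ‖p.2.1‖ ≤ ‖p.1‖} :=
    measurableSet_le (by fun_prop) (by fun_prop)
  have h3 : MeasurableSet {p : ℂ × ℂ × ℂ | ‖p.2.2‖ ≤ ‖p.1‖} :=
    measurableSet_le (by fun_prop) (by fun_prop)
  have h4 : MeasurableSet {p : ℂ × ℂ × ℂ | largestAngle p.1 p.2.1 p.2.2 ≤ φ} :=
    measurableSet_le measurable_largestAngle measurable_const
  exact h1.inter (h2.inter (h3.inter h4))

lemma T_ball_le (φ : ℝ) : volume (T (Metric.ball (0 : ℂ) 1) φ) ≤ 3 * volume (G φ) := by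
  have hG := measurableSet_G φ
  have hmeas : Measurable ((G φ).indicator (1 : ℂ × ℂ × ℂ → ℝ≥0∞)) := measurable_one.indicator hG
  have hT : MeasurableSet (T (Metric.ball (0 : ℂ) 1) φ) :=
    measurableSet_T Metric.isOpen_ball.measurableSet φ
  have key : ∀ X Y Z : ℂ, (T (Metric.ball (0 : ℂ) 1) φ).indicator (1 : ℂ × ℂ × ℂ → ℝ≥0∞) (X, Y, Z)
      ≤ (G φ).indicator 1 (X, Y, Z) + (G φ).indicator 1 (Y, X, Z)
        + (G φ).indicator 1 (Z, Y, X) := by
    intro X Y Z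
    by_cases h : (X, Y, Z) ∈ T (Metric.ball (0 : ℂ) 1) φ
    · rw [indicator_of_mem h]
      obtain ⟨h1, h2, h3, h4⟩ := h
      simp only [mem_ball_zero_iff] at h1 h2 h3
      simp only at h4
      rcases le_total ‖Y‖ ‖X‖ with hYX | hXY
      · rcases le_total ‖Z‖ ‖X‖ with hZX | hXZ
        · rw [indicator_of_mem (show (X, Y, Z) ∈ G φ from ⟨h1, hYX, hZX, h4⟩)]
          rw [add_assoc]
          exact le_self_add
        · have : (Z, Y, X) ∈ G φ :=
            ⟨h3, hYX.trans hXZ, hXZ, by simpa only [largestAngle_swap13] using h4⟩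
          rw [indicator_of_mem this]
          exact le_add_self
      · rcases le_total ‖Z‖ ‖Y‖ with hZY | hYZ
        · have : (Y, X, Z) ∈ G φ :=
            ⟨h2, hXY, hZY, by simpa only [largestAngle_swap12] using h4⟩
          rw [indicator_of_mem this, add_right_comm]
          exact le_add_self
        · have : (Z, Y, X) ∈ G φ :=
            ⟨h3, hYZ, hXY.trans hYZ, by simpa only [largestAngle_swap13] using h4⟩
          rw [indicator_of_mem this]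
          exact le_add_self
    · rw [indicator_of_notMem h]
      exact zero_le
  rw [volume_triple hT]
  calc ∫⁻ X, ∫⁻ Y, ∫⁻ Z, (T (Metric.ball (0 : ℂ) 1) φ).indicator (1 : ℂ × ℂ × ℂ → ℝ≥0∞) (X, Y, Z)
      ≤ ∫⁻ X, ∫⁻ Y, ∫⁻ Z, ((G φ).indicator (1 : ℂ × ℂ × ℂ → ℝ≥0∞) (X, Y, Z)
        + (G φ).indicator 1 (Y, X, Z) + (G φ).indicator 1 (Z, Y, X)) :=
        lintegral_mono fun X => lintegral_mono fun Y => lintegral_mono fun Z => key X Y Z
    _ = (∫⁻ X, ∫⁻ Y, ∫⁻ Z, (G φ).indicator (1 : ℂ × ℂ × ℂ → ℝ≥0∞) (X, Y, Z))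
        + (∫⁻ X, ∫⁻ Y, ∫⁻ Z, (G φ).indicator (1 : ℂ × ℂ × ℂ → ℝ≥0∞) (Y, X, Z))
        + (∫⁻ X, ∫⁻ Y, ∫⁻ Z, (G φ).indicator (1 : ℂ × ℂ × ℂ → ℝ≥0∞) (Z, Y, X)) := by
        have e1 : ∀ X Y : ℂ, ∫⁻ Z, ((G φ).indicator (1 : ℂ × ℂ × ℂ → ℝ≥0∞) (X, Y, Z)
            + (G φ).indicator 1 (Y, X, Z) + (G φ).indicator 1 (Z, Y, X))
            = (∫⁻ Z, (G φ).indicator (1 : ℂ × ℂ × ℂ → ℝ≥0∞) (X, Y, Z))
            + (∫⁻ Z, (G φ).indicator (1 : ℂ × ℂ × ℂ → ℝ≥0∞) (Y, X, Z))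
            + (∫⁻ Z, (G φ).indicator (1 : ℂ × ℂ × ℂ → ℝ≥0∞) (Z, Y, X)) := by
          intro X Y
          rw [lintegral_add_right _ (by fun_prop), lintegral_add_right _ (by fun_prop)]
        simp_rw [e1]
        have m1 : Measurable fun p : ℂ × ℂ => ∫⁻ Z, (G φ).indicator (1 : ℂ × ℂ × ℂ → ℝ≥0∞)
            (p.1, p.2, Z) := by
          apply Measurable.lintegral_prod_right'
            (f := fun q : (ℂ × ℂ) × ℂ => (G φ).indicator (1 : ℂ × ℂ × ℂ → ℝ≥0∞) (q.1.1, q.1.2, q.2))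
          fun_prop
        have m2 : Measurable fun p : ℂ × ℂ => ∫⁻ Z, (G φ).indicator (1 : ℂ × ℂ × ℂ → ℝ≥0∞)
            (p.2, p.1, Z) := by
          apply Measurable.lintegral_prod_right'
            (f := fun q : (ℂ × ℂ) × ℂ => (G φ).indicator (1 : ℂ × ℂ × ℂ → ℝ≥0∞) (q.1.2, q.1.1, q.2))
          fun_prop
        have m3 : Measurable fun p : ℂ × ℂ => ∫⁻ Z, (G φ).indicator (1 : ℂ × ℂ × ℂ → ℝ≥0∞)
            (Z, p.2, p.1) := by
          apply Measurable.lintegral_prod_right'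
            (f := fun q : (ℂ × ℂ) × ℂ => (G φ).indicator (1 : ℂ × ℂ × ℂ → ℝ≥0∞) (q.2, q.1.2, q.1.1))
          fun_prop
        have e2 : ∀ X : ℂ, ∫⁻ Y, ((∫⁻ Z, (G φ).indicator (1 : ℂ × ℂ × ℂ → ℝ≥0∞) (X, Y, Z))
            + (∫⁻ Z, (G φ).indicator (1 : ℂ × ℂ × ℂ → ℝ≥0∞) (Y, X, Z))
            + (∫⁻ Z, (G φ).indicator (1 : ℂ × ℂ × ℂ → ℝ≥0∞) (Z, Y, X)))
            = (∫⁻ Y, ∫⁻ Z, (G φ).indicator (1 : ℂ × ℂ × ℂ → ℝ≥0∞) (X, Y, Z))
            + (∫⁻ Y, ∫⁻ Z, (G φ).indicator (1 : ℂ × ℂ × ℂ → ℝ≥0∞) (Y, X, Z))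
            + (∫⁻ Y, ∫⁻ Z, (G φ).indicator (1 : ℂ × ℂ × ℂ → ℝ≥0∞) (Z, Y, X)) := by
          intro X
          have k3 : Measurable fun Y : ℂ => ∫⁻ Z, (G φ).indicator (1 : ℂ × ℂ × ℂ → ℝ≥0∞)
              (Z, Y, X) := m3.comp (by fun_prop : Measurable fun Y : ℂ => (X, Y))
          have k2 : Measurable fun Y : ℂ => ∫⁻ Z, (G φ).indicator (1 : ℂ × ℂ × ℂ → ℝ≥0∞)
              (Y, X, Z) := m2.comp (by fun_prop : Measurable fun Y : ℂ => (X, Y))
          rw [lintegral_add_right _ k3, lintegral_add_right _ k2]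
        simp_rw [e2]
        rw [lintegral_add_right _ m3.lintegral_prod_right', lintegral_add_right _ m2.lintegral_prod_right']
    _ = 3 * volume (G φ) := by
        have a1 : (∫⁻ X, ∫⁻ Y, ∫⁻ Z, (G φ).indicator (1 : ℂ × ℂ × ℂ → ℝ≥0∞) (X, Y, Z))
            = volume (G φ) := (volume_triple hG).symm
        have a2 : (∫⁻ X, ∫⁻ Y, ∫⁻ Z, (G φ).indicator (1 : ℂ × ℂ × ℂ → ℝ≥0∞) (Y, X, Z))
            = volume (G φ) := by
          rw [← a1]
          apply lintegral_lintegral_swap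
          refine Measurable.aemeasurable ?_
          apply Measurable.lintegral_prod_right'
            (f := fun q : (ℂ × ℂ) × ℂ => (G φ).indicator (1 : ℂ × ℂ × ℂ → ℝ≥0∞) (q.1.2, q.1.1, q.2))
          fun_prop
        have a3 : (∫⁻ X, ∫⁻ Y, ∫⁻ Z, (G φ).indicator (1 : ℂ × ℂ × ℂ → ℝ≥0∞) (Z, Y, X))
            = volume (G φ) := by
          rw [← a1]
          calc (∫⁻ X, ∫⁻ Y, ∫⁻ Z, (G φ).indicator (1 : ℂ × ℂ × ℂ → ℝ≥0∞) (Z, Y, X))
              = ∫⁻ X, ∫⁻ Z, ∫⁻ Y, (G φ).indicator (1 : ℂ × ℂ × ℂ → ℝ≥0∞) (Z, Y, X) := by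
                congr 1
                ext X
                exact lintegral_lintegral_swap (by fun_prop)
            _ = ∫⁻ Z, ∫⁻ X, ∫⁻ Y, (G φ).indicator (1 : ℂ × ℂ × ℂ → ℝ≥0∞) (Z, Y, X) := by
                apply lintegral_lintegral_swap
                refine Measurable.aemeasurable ?_
                apply Measurable.lintegral_prod_right'
                  (f := fun q : (ℂ × ℂ) × ℂ =>
                    (G φ).indicator (1 : ℂ × ℂ × ℂ → ℝ≥0∞) (q.1.2, q.2, q.1.1))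
                fun_prop
            _ = ∫⁻ Z, ∫⁻ Y, ∫⁻ X, (G φ).indicator (1 : ℂ × ℂ × ℂ → ℝ≥0∞) (Z, Y, X) := by
                congr 1
                ext Z
                exact lintegral_lintegral_swap (by fun_prop)
        rw [a1, a2, a3]
        ring

end Pool.Agent.H532R3.Hall
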