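import Pool.Agent.H532R3.Hall.Defs

set_option autoImplicit false

open MeasureTheory Set Filter Topology
open scoped ENNReal NNReal Real

namespace Pool.Agent.H532R3.Hall

lemma angle_map {V W : Type*} [NormedAddCommGroup V] [InnerProductSpace ℝ V]
    [NormedAddCommGroup W] [InnerProductSpace ℝ W] (e : V ≃ₗᵢ[ℝ] W) (x y : V) :
    InnerProductGeometry.angle (e x) (e y) = InnerProductGeometry.angle x y := by
  unfold InnerProductGeometry.angle
  rw [e.inner_map_map, e.norm_map, e.norm_map]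

lemma largestAngle_map {V W : Type*} [NormedAddCommGroup V] [InnerProductSpace ℝ V]
    [NormedAddCommGroup W] [InnerProductSpace ℝ W] (e : V ≃ₗᵢ[ℝ] W) (x y z : V) :
    largestAngle (e x) (e y) (e z) = largestAngle x y z := by
  simp only [largestAngle_eq, ← map_sub, angle_map]

lemma F_transfer (S : Set (EuclideanSpace ℝ (Fin 2))) (hS : MeasurableSet S) (φ : ℝ) :
    F S φ = F (Complex.orthonormalBasisOneI.repr ⁻¹' S) φ := by
  rw [F_eq, F_eq]
  have hmp : MeasurePreserving (Complex.orthonormalBasisOneI.repr :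
      ℂ → EuclideanSpace ℝ (Fin 2)) volume volume :=
    Complex.orthonormalBasisOneI.measurePreserving_repr
  have h1 : volume (Complex.orthonormalBasisOneI.repr ⁻¹' S) = volume S :=
    hmp.measure_preimage hS.nullMeasurableSet
  have h3 := hmp.prod (hmp.prod hmp)
  have h2 : volume (T (Complex.orthonormalBasisOneI.repr ⁻¹' S) φ) = volume (T S φ) := by
    have := h3.measure_preimage (measurableSet_T hS φ).nullMeasurableSet
    rw [Measure.volume_eq_prod, Measure.volume_eq_prod, Measure.volume_eq_prod,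
      Measure.volume_eq_prod, ← this]
    congr 1
    ext p
    simp only [T, mem_preimage, mem_ofPred_eq, Prod.map_fst, Prod.map_snd, largestAngle_map]
  rw [h1, h2]

/-- substitution `Z = X + u ζ`. -/
lemma lintegral_affine (X u : ℂ) (hu : u ≠ 0) (g : ℂ → ℝ≥0∞) (hg : Measurable g) :
    ∫⁻ Z, g Z = ENNReal.ofReal (Complex.normSq u) * ∫⁻ ζ, g (X + u * ζ) := by
  have h1 : ∫⁻ Z, g Z = ∫⁻ Z, g (X + Z) := (lintegral_add_left_eq_self g X).symm
  rw [h1]
  set f : ℂ →ₗ[ℝ] ℂ := Algebra.lmul ℝ ℂ u with hf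
  have hfa : ∀ z, f z = u * z := fun z => rfl
  have hdet : LinearMap.det f = Complex.normSq u := by
    rw [hf, ← Algebra.norm_apply, Algebra.norm_complex_apply]
  have hpos : 0 < Complex.normSq u := Complex.normSq_pos.mpr hu
  have hdet0 : LinearMap.det f ≠ 0 := by rw [hdet]; exact hpos.ne'
  have hmap := Measure.map_linearMap_addHaar_eq_smul_addHaar (volume : Measure ℂ) hdet0
  have hmeas : Measurable f := by
    have : (f : ℂ → ℂ) = fun z => u * z := rfl
    rw [this]; fun_prop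
  have h2 : ∫⁻ ζ, g (X + u * ζ) = ∫⁻ Z, g (X + Z) ∂(Measure.map f volume) := by
    rw [lintegral_map (by fun_prop) hmeas]
    rfl
  rw [h2, hmap, lintegral_smul_measure, hdet]
  rw [smul_eq_mul, ← mul_assoc, ← ENNReal.ofReal_mul hpos.le, abs_inv, abs_of_pos hpos,
    mul_inv_cancel₀ hpos.ne', ENNReal.ofReal_one, one_mul]

lemma shape (f : ℂ × ℂ × ℂ → ℝ≥0∞) (hf : Measurable f) :
    ∫⁻ X, ∫⁻ Y, ∫⁻ Z, f (X, Y, Z) =
      ∫⁻ ζ, ∫⁻ X, ∫⁻ u, ENNReal.ofReal (Complex.normSq u) * f (X, X + u, X + u * ζ) := by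
  have h1 : ∀ X : ℂ, ∫⁻ Y, ∫⁻ Z, f (X, Y, Z) =
      ∫⁻ ζ, ∫⁻ u, ENNReal.ofReal (Complex.normSq u) * f (X, X + u, X + u * ζ) := by
    intro X
    rw [← lintegral_add_left_eq_self (fun Y => ∫⁻ Z, f (X, Y, Z)) X]
    conv_rhs => rw [lintegral_lintegral_swap (by fun_prop)]
    apply lintegral_congr_ae
    have : ∀ᵐ u : ℂ, u ≠ 0 := by
      simp [ae_iff]
    filter_upwards [this] with u hu
    rw [lintegral_affine X u hu _ (by fun_prop), lintegral_const_mul _ (by fun_prop)]
  simp_rw [h1]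
  rw [lintegral_lintegral_swap]
  refine Measurable.aemeasurable ?_
  apply Measurable.lintegral_prod_right'
    (f := fun p : (ℂ × ℂ) × ℂ => ENNReal.ofReal (Complex.normSq p.2) *
      f (p.1.1, p.1.1 + p.2, p.1.1 + p.2 * p.1.2))
  fun_prop

end Pool.Agent.H532R3.Hall
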