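import Pool.Agent.H532R3.Hall.EvalQ

set_option autoImplicit false

open MeasureTheory Set Filter Topology
open scoped ENNReal NNReal Real

namespace Pool.Agent.H532R3.Hall

/-- the closed unit square in `ℂ`. -/
def Q : Set ℂ := {z | (0 ≤ z.re ∧ z.re ≤ 1) ∧ (0 ≤ z.im ∧ z.im ≤ 1)}

lemma measurableSet_Q : MeasurableSet Q := by
  have h1 : MeasurableSet {z : ℂ | 0 ≤ z.re} := measurableSet_le (by fun_prop) (by fun_prop)
  have h2 : MeasurableSet {z : ℂ | z.re ≤ 1} := measurableSet_le (by fun_prop) (by fun_prop)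
  have h3 : MeasurableSet {z : ℂ | 0 ≤ z.im} := measurableSet_le (by fun_prop) (by fun_prop)
  have h4 : MeasurableSet {z : ℂ | z.im ≤ 1} := measurableSet_le (by fun_prop) (by fun_prop)
  exact (h1.inter h2).inter (h3.inter h4)

lemma volume_rect (a b c d : ℝ) :
    volume {X : ℂ | (a ≤ X.re ∧ X.re ≤ b) ∧ (c ≤ X.im ∧ X.im ≤ d)} =
      ENNReal.ofReal (b - a) * ENNReal.ofReal (d - c) := by
  have h := Complex.volume_preserving_equiv_real_prod
  have h2 : {X : ℂ | (a ≤ X.re ∧ X.re ≤ b) ∧ (c ≤ X.im ∧ X.im ≤ d)} =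
      Complex.measurableEquivRealProd ⁻¹' (Icc a b ×ˢ Icc c d) := by
    ext X
    simp only [mem_ofPred_eq, mem_preimage, mem_prod, mem_Icc]
    rfl
  rw [h2, h.measure_preimage (measurableSet_Icc.prod measurableSet_Icc).nullMeasurableSet,
    Measure.volume_eq_prod, Measure.prod_prod, Real.volume_Icc, Real.volume_Icc]

lemma volume_Q : volume Q = 1 := by
  have := volume_rect 0 1 0 1
  simpa [Q] using this

lemma volume_W (u w : ℂ) : volume {X : ℂ | X ∈ Q ∧ X + u ∈ Q ∧ X + w ∈ Q} =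
    ENNReal.ofReal (max 0 (1 - rg u.re w.re) * max 0 (1 - rg u.im w.im)) := by
  have h2 : {X : ℂ | X ∈ Q ∧ X + u ∈ Q ∧ X + w ∈ Q} =
      {X : ℂ | (-(min 0 (min u.re w.re)) ≤ X.re ∧ X.re ≤ 1 - max 0 (max u.re w.re)) ∧
        (-(min 0 (min u.im w.im)) ≤ X.im ∧ X.im ≤ 1 - max 0 (max u.im w.im))} := by
    ext X
    simp only [Q, mem_ofPred_eq, Complex.add_re, Complex.add_im]
    constructor
    · rintro ⟨⟨⟨a1, a2⟩, a3, a4⟩, ⟨⟨b1, b2⟩, b3, b4⟩, ⟨⟨c1, c2⟩, c3, c4⟩⟩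
      refine ⟨⟨?_, ?_⟩, ?_, ?_⟩
      · rw [neg_le]
        exact le_min (by linarith) (le_min (by linarith) (by linarith))
      · rw [le_sub_comm]
        exact max_le (by linarith) (max_le (by linarith) (by linarith))
      · rw [neg_le]
        exact le_min (by linarith) (le_min (by linarith) (by linarith))
      · rw [le_sub_comm]
        exact max_le (by linarith) (max_le (by linarith) (by linarith))
    · rintro ⟨⟨a1, a2⟩, a3, a4⟩
      rw [neg_le] at a1 a3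
      rw [le_sub_comm] at a2 a4
      simp only [le_min_iff, max_le_iff] at a1 a2 a3 a4
      obtain ⟨a11, a12, a13⟩ := a1
      obtain ⟨a21, a22, a23⟩ := a2
      obtain ⟨a31, a32, a33⟩ := a3
      obtain ⟨a41, a42, a43⟩ := a4
      refine ⟨⟨⟨?_, ?_⟩, ?_, ?_⟩, ⟨⟨?_, ?_⟩, ?_, ?_⟩, ⟨⟨?_, ?_⟩, ?_, ?_⟩⟩ <;> linarith
  rw [h2, volume_rect]
  have e1 : 1 - max 0 (max u.re w.re) - -(min 0 (min u.re w.re)) = 1 - rg u.re w.re := by
    unfold rg; ring
  have e2 : 1 - max 0 (max u.im w.im) - -(min 0 (min u.im w.im)) = 1 - rg u.im w.im := by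
    unfold rg; ring
  have e3 : ∀ x : ℝ, ENNReal.ofReal x = ENNReal.ofReal (max 0 x) := by
    intro x
    rcases le_total 0 x with h | h
    · rw [max_eq_right h]
    · rw [max_eq_left h, ENNReal.ofReal_of_nonpos h, ENNReal.ofReal_zero]
  rw [e1, e2, e3 (1 - rg u.re w.re), e3 (1 - rg u.im w.im),
    ← ENNReal.ofReal_mul (le_max_left _ _)]

noncomputable def HQ (ζ : ℂ) : ℝ≥0∞ := ∫⁻ u : ℂ, ENNReal.ofReal (Complex.normSq u *
  (max 0 (1 - rg u.re (u * ζ).re) * max 0 (1 - rg u.im (u * ζ).im)))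

lemma volume_T_Q (φ : ℝ) : volume (T Q φ) = ∫⁻ ζ in A φ, HQ ζ := by
  have hT : MeasurableSet (T Q φ) := measurableSet_T measurableSet_Q φ
  have hmeas : Measurable ((T Q φ).indicator (1 : ℂ × ℂ × ℂ → ℝ≥0∞)) := measurable_one.indicator hT
  rw [volume_triple hT, shape (fun p => (T Q φ).indicator 1 p) hmeas,
    ← lintegral_indicator (measurableSet_A φ)]
  congr 1
  ext ζ
  rw [lintegral_lintegral_swap (by fun_prop)]
  have h0 : ∀ᵐ u : ℂ, u ≠ 0 := by simp [ae_iff]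
  have h1 : ∀ u : ℂ, u ≠ 0 → ∫⁻ X, ENNReal.ofReal (Complex.normSq u) *
      (T Q φ).indicator (1 : ℂ × ℂ × ℂ → ℝ≥0∞) (X, X + u, X + u * ζ) =
      (A φ).indicator 1 ζ * ENNReal.ofReal (Complex.normSq u *
        (max 0 (1 - rg u.re (u * ζ).re) * max 0 (1 - rg u.im (u * ζ).im))) := by
    intro u hu
    rw [lintegral_const_mul _ (by fun_prop)]
    have hW : MeasurableSet {X : ℂ | X ∈ Q ∧ X + u ∈ Q ∧ X + u * ζ ∈ Q} := by
      have m1 : MeasurableSet {X : ℂ | X + u ∈ Q} :=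
        (by fun_prop : Measurable fun X : ℂ => X + u) measurableSet_Q
      have m2 : MeasurableSet {X : ℂ | X + u * ζ ∈ Q} :=
        (by fun_prop : Measurable fun X : ℂ => X + u * ζ) measurableSet_Q
      exact measurableSet_Q.inter (m1.inter m2)
    have h2 : ∀ X : ℂ, (T Q φ).indicator (1 : ℂ × ℂ × ℂ → ℝ≥0∞) (X, X + u, X + u * ζ) =
        (A φ).indicator 1 ζ * {X : ℂ | X ∈ Q ∧ X + u ∈ Q ∧ X + u * ζ ∈ Q}.indicator 1 X := by
      intro X
      have hmem : (X, X + u, X + u * ζ) ∈ T Q φ ↔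
          ζ ∈ A φ ∧ X ∈ {X : ℂ | X ∈ Q ∧ X + u ∈ Q ∧ X + u * ζ ∈ Q} := by
        simp only [T, A, mem_ofPred_eq, largestAngle_similar X u ζ hu]
        tauto
      by_cases a2 : ζ ∈ A φ
      · by_cases a3 : X ∈ {X : ℂ | X ∈ Q ∧ X + u ∈ Q ∧ X + u * ζ ∈ Q}
        · rw [indicator_of_mem (hmem.mpr ⟨a2, a3⟩), indicator_of_mem a2, indicator_of_mem a3]
          simp
        · rw [indicator_of_notMem (fun hh => a3 (hmem.mp hh).2), indicator_of_notMem a3]
          simp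
      · rw [indicator_of_notMem (fun hh => a2 (hmem.mp hh).1), indicator_of_notMem a2]
        simp
    simp_rw [h2]
    rw [lintegral_const_mul _ (measurable_one.indicator hW), lintegral_indicator_one hW, volume_W,
      ENNReal.ofReal_mul (Complex.normSq_nonneg u)]
    ring
  rw [lintegral_congr_ae (h0.mono fun u hu => h1 u hu)]
  by_cases a2 : ζ ∈ A φ
  · rw [indicator_of_mem a2]
    simp only [indicator_of_mem a2, Pi.one_apply, one_mul]
    rfl
  · rw [indicator_of_notMem a2]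
    simp only [indicator_of_notMem a2, zero_mul, lintegral_zero]

/-- imaginary part of `e^{iψ} ζ` -/
noncomputable def pim (ψ : ℝ) (ζ : ℂ) : ℝ := Real.cos ψ * ζ.im + Real.sin ψ * ζ.re

noncomputable def kQ (ζ : ℂ) (ψ r : ℝ) : ℝ :=
  r ^ 3 * max 0 (1 - r * rg (Real.cos ψ) (pr ψ ζ)) * max 0 (1 - r * rg (Real.sin ψ) (pim ψ ζ))

noncomputable def IQ (ζ : ℂ) (ψ : ℝ) : ℝ := ∫ r in (0 : ℝ)..2, kQ ζ ψ r

noncomputable def HQr (ζ : ℂ) : ℝ := ∫ ψ in (-π)..π, IQ ζ ψ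

lemma continuous_kQ : Continuous fun p : (ℂ × ℝ) × ℝ => kQ p.1.1 p.1.2 p.2 := by
  unfold kQ
  have h1 : Continuous fun p : (ℂ × ℝ) × ℝ => rg (Real.cos p.1.2) (pr p.1.2 p.1.1) := by
    apply continuous_rg.comp (g := fun q : ℝ × ℝ => rg q.1 q.2)
      (f := fun p : (ℂ × ℝ) × ℝ => (Real.cos p.1.2, pr p.1.2 p.1.1))
    unfold pr
    fun_prop
  have h2 : Continuous fun p : (ℂ × ℝ) × ℝ => rg (Real.sin p.1.2) (pim p.1.2 p.1.1) := by
    apply continuous_rg.comp (g := fun q : ℝ × ℝ => rg q.1 q.2)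
      (f := fun p : (ℂ × ℝ) × ℝ => (Real.sin p.1.2, pim p.1.2 p.1.1))
    unfold pim
    fun_prop
  fun_prop

lemma continuous_inner : Continuous fun p : ℂ × ℝ => IQ p.1 p.2 :=
  intervalIntegral.continuous_parametric_intervalIntegral_of_continuous' continuous_kQ 0 2

lemma continuous_HQr : Continuous HQr :=
  intervalIntegral.continuous_parametric_intervalIntegral_of_continuous' continuous_inner (-π) π

lemma HQr_z0 : HQr z0 = (267 - 152 * √3) / 30 := by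
  rw [← integral_P]
  unfold HQr
  congr 1
  ext ψ
  unfold P J IQ
  congr 1
  ext r
  unfold kQ ax ay
  have e1 : pr ψ z0 = Real.cos (ψ + π / 3) := pr_z0 ψ
  have e2 : pim ψ z0 = Real.sin (ψ + π / 3) := by
    unfold pim z0
    rw [sin_add_third]
    ring
  rw [e1, e2]

lemma kQ_conj (ζ : ℂ) (ψ r : ℝ) : kQ (starRingEnd ℂ ζ) ψ r = kQ ζ (-ψ) r := by
  unfold kQ
  have e1 : pr ψ (starRingEnd ℂ ζ) = pr (-ψ) ζ := by
    unfold pr
    simp
  have e2 : pim ψ (starRingEnd ℂ ζ) = -(pim (-ψ) ζ) := by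
    unfold pim
    simp
    ring
  rw [e1, e2, Real.cos_neg, Real.sin_neg]
  have e3 : rg (Real.sin ψ) (-pim (-ψ) ζ) = rg (-Real.sin ψ) (pim (-ψ) ζ) := by
    rw [← rg_neg, neg_neg]
  rw [e3]

lemma HQr_conj (ζ : ℂ) : HQr (starRingEnd ℂ ζ) = HQr ζ := by
  have h : ∀ ψ, IQ (starRingEnd ℂ ζ) ψ = IQ ζ (-ψ) := by
    intro ψ
    unfold IQ
    simp_rw [kQ_conj]
  unfold HQr
  simp_rw [h]
  rw [intervalIntegral.integral_comp_neg (fun ψ => IQ ζ ψ)]
  simp

lemma kQ_nonneg (ζ : ℂ) (ψ : ℝ) {r : ℝ} (hr : 0 ≤ r) : 0 ≤ kQ ζ ψ r := by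
  unfold kQ
  have h1 : 0 ≤ max 0 (1 - r * rg (Real.cos ψ) (pr ψ ζ)) := le_max_left _ _
  have h2 : 0 ≤ max 0 (1 - r * rg (Real.sin ψ) (pim ψ ζ)) := le_max_left _ _
  positivity

lemma HQ_polar (ζ : ℂ) (ψ : ℝ) {r : ℝ} (hr : 0 < r) :
    ENNReal.ofReal r * ENNReal.ofReal (Complex.normSq (r * (Real.cos ψ + Real.sin ψ * Complex.I)) *
      (max 0 (1 - rg ((r : ℂ) * (Real.cos ψ + Real.sin ψ * Complex.I)).re
          ((r : ℂ) * (Real.cos ψ + Real.sin ψ * Complex.I) * ζ).re) *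
        max 0 (1 - rg ((r : ℂ) * (Real.cos ψ + Real.sin ψ * Complex.I)).im
          ((r : ℂ) * (Real.cos ψ + Real.sin ψ * Complex.I) * ζ).im))) =
      ENNReal.ofReal (kQ ζ ψ r) := by
  rw [normSq_circle, ← ENNReal.ofReal_mul hr.le]
  have e1 : ((r : ℂ) * (Real.cos ψ + Real.sin ψ * Complex.I)).re = r * Real.cos ψ := by
    have := re_aux1 r (Real.cos ψ) (Real.sin ψ)
    rw [one_mul, Complex.conj_re] at this
    exact this
  have e2 : ((r : ℂ) * (Real.cos ψ + Real.sin ψ * Complex.I) * ζ).re = r * pr ψ ζ := by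
    have := re_aux r (Real.cos ψ) (Real.sin ψ) ζ
    rw [one_mul, Complex.conj_re] at this
    exact this
  have e3 : ∀ c s : ℝ, ((r : ℂ) * (c + s * Complex.I)).im = r * s := by
    intro c s
    simp [Complex.mul_im]
  have e4 : ∀ c s : ℝ, ((r : ℂ) * (c + s * Complex.I) * ζ).im =
      r * (c * ζ.im + s * ζ.re) := by
    intro c s
    simp [Complex.mul_im, Complex.mul_re]
    ring
  rw [e1, e2, e3, e4, rg_smul hr.le, rg_smul hr.le]
  unfold kQ pim
  congr 1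
  ring

lemma continuous_kQ_r (ζ : ℂ) (ψ : ℝ) : Continuous fun r : ℝ => kQ ζ ψ r :=
  continuous_kQ.comp (by fun_prop : Continuous fun r : ℝ => (((ζ, ψ) : ℂ × ℝ), r))

lemma ofReal_inner (ζ : ℂ) (ψ : ℝ) : ENNReal.ofReal (IQ ζ ψ) ≤
    ∫⁻ r in Ioi (0 : ℝ), ENNReal.ofReal (kQ ζ ψ r) := by
  unfold IQ
  rw [intervalIntegral.integral_of_le (by norm_num : (0 : ℝ) ≤ 2),
    ofReal_integral_eq_lintegral_ofReal (continuous_kQ_r ζ ψ).integrableOn_Ioc]
  · exact lintegral_mono_set Ioc_subset_Ioi_self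
  · filter_upwards [ae_restrict_mem measurableSet_Ioc] with r hr
    exact kQ_nonneg ζ ψ hr.1.le

lemma HQr_lint (ζ : ℂ) : ENNReal.ofReal (HQr ζ) =
    ∫⁻ ψ in Ioo (-π) π, ENNReal.ofReal (IQ ζ ψ) := by
  have hcin : Continuous fun ψ : ℝ => IQ ζ ψ :=
    Continuous.comp (f := fun ψ : ℝ => ((ζ, ψ) : ℂ × ℝ)) continuous_inner (by fun_prop)
  unfold HQr
  rw [intervalIntegral.integral_of_le (by linarith [Real.pi_pos]),
    ofReal_integral_eq_lintegral_ofReal hcin.integrableOn_Ioc]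
  · exact setLIntegral_congr Ioo_ae_eq_Ioc.symm
  · filter_upwards with ψ
    apply intervalIntegral.integral_nonneg (by norm_num)
    intro r hr
    exact kQ_nonneg ζ ψ hr.1

lemma measurable_HQ (ζ : ℂ) : Measurable fun u : ℂ => ENNReal.ofReal (Complex.normSq u *
      (max 0 (1 - rg u.re (u * ζ).re) * max 0 (1 - rg u.im (u * ζ).im))) := by
  have h1 : Continuous fun u : ℂ => rg u.re (u * ζ).re :=
    continuous_rg.comp (by fun_prop : Continuous fun u : ℂ => (u.re, (u * ζ).re))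
  have h2 : Continuous fun u : ℂ => rg u.im (u * ζ).im :=
    continuous_rg.comp (by fun_prop : Continuous fun u : ℂ => (u.im, (u * ζ).im))
  have h3 : Continuous fun u : ℂ => Complex.normSq u *
    (max 0 (1 - rg u.re (u * ζ).re) * max 0 (1 - rg u.im (u * ζ).im)) := by fun_prop
  exact h3.measurable.ennreal_ofReal

lemma HQ_ge (ζ : ℂ) : ENNReal.ofReal (HQr ζ) ≤ HQ ζ := by
  unfold HQ
  rw [polar _ (measurable_HQ ζ), HQr_lint]
  apply lintegral_mono
  intro ψ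
  refine (ofReal_inner ζ ψ).trans ?_
  apply setLIntegral_mono' measurableSet_Ioi
  intro r hr
  exact (HQ_polar ζ ψ hr).symm.le

end Pool.Agent.H532R3.Hall
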